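import Pool.Agent.Work.MP_5cb0a4_pr.N.MainN

/-! From a lower bound on the mixed order parameter to a common gauge. -/

open MeasureTheory Finset Filter Topology
open scoped Classical

namespace Pool.Agent.Work.MP_5cb0a4_pr.Z

/-- The mixed order parameter of two functions. -/
noncomputable def XN (G₁ G₂ : V → ℝ) (N : ℕ) (d : Dir) : ℝ :=
  ∑ z ∈ box (2 * N), pk (2 * N) z *
    (G₁ (z + dv d) * G₂ (dv d - z) + G₂ (z + dv d) * G₁ (dv d - z))

theorem XN_comm (G₁ G₂ : V → ℝ) (N : ℕ) (d : Dir) : XN G₁ G₂ N d = XN G₂ G₁ N d :=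
  sum_congr rfl fun _ _ => by rw [add_comm]

theorem DGau_ne (d : Dir) : d ≠ (d.1, !d.2) := fun h => by
  have := congrArg Prod.snd h
  simp at this

/-- Order in two opposite directions gives order in all directions. -/
theorem DGau_lro {G : V → ℝ} (h0 : ∀ w, 0 ≤ G w) (h1 : ∀ d, G (dv d) ≤ 1)
    (h : PSD (TG G) (TG G) 2) {d : Dir} {c : ℝ} (hc : 0 < c) {N₁ : ℕ}
    (hm : ∀ N ≥ N₁, c ≤ mN G N d ∧ c ≤ mN G N (d.1, !d.2)) : LRO G := by
  obtain ⟨N₂, hN₂⟩ := eventually_atTop.1 (summable_xN.tendsto_atTop_zero.eventually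
    (Iic_mem_nhds (show (0 : ℝ) < c ^ 2 / 18 by positivity)))
  obtain ⟨n₀, hn⟩ := pk_small (ε := c ^ 2 / 24) (by positivity)
  refine ⟨c ^ 2 / 12, by positivity, N₁ + N₂ + n₀, fun N hN d' => ?_⟩
  have p0 := pk_nonneg (2 * N) 0
  have a1 : c ≤ mK G N d d 0 := by
    rw [mK_eq]
    linarith only [(hm N (by omega)).1, p0]
  have a2 : c ≤ mK G N (d.1, !d.2) (d.1, !d.2) 0 := by
    rw [mK_eq]
    linarith only [(hm N (by omega)).2, p0]
  have a3 := gram h0 h1 h N d (d.1, !d.2) (.inl rfl)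
  have a4 : mK G N d' (d'.1, !d'.2) (dv d' - dv d) = mK G N d (d.1, !d.2) 0 := by
    refine sum_congr rfl fun z _ => ?_
    simp only [kG, DGau_ne, and_false, if_false, dv_not]
    rw [show z + (dv d' - dv d) + -dv d' = z + 0 + -dv d by abel,
      show dv d' - (z + (dv d' - dv d)) = dv d - (z + 0) by abel]
  have a5 := NScale_three h N d' (d'.1, !d'.2) (d'.1, !d'.2) (NScale_ev d' d) NScale_ev0 3
    (-mK G N d (d.1, !d.2) 0) 0
  rw [a4] at a5
  have a6 := mul_le_mul_of_nonneg_left (mK_le h0 h1 h N (d'.1, !d'.2) (d'.1, !d'.2) NScale_ev0)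
    (sq_nonneg (mK G N d (d.1, !d.2) 0))
  have a7 := mul_le_mul a1 a2 hc.le (hc.le.trans a1)
  have a8 : xN N ≤ c ^ 2 / 18 := hN₂ N (by omega)
  have a9 := hn (2 * N) (by omega) 0
  have a10 := mK_eq G N d'
  nlinarith only [a3, a5, a6, a7, a8, a9, a10]

theorem DGau_psd {G₁ G₂ : V → ℝ} (p11 : PSD (TG G₁) (TG G₁) 2) (p22 : PSD (TG G₂) (TG G₂) 2)
    (p12 : PSD (TG G₁) (TG G₂) 2) {a b : ℝ} (ha : 0 ≤ a) (hb : 0 ≤ b) (hab : a + b = 1) :
    PSD (TG fun w => a * G₁ w + b * G₂ w) (TG fun w => a * G₁ w + b * G₂ w) 2 := fun D hD t => by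
  have e : Kq (TG fun w => a * G₁ w + b * G₂ w) (TG fun w => a * G₁ w + b * G₂ w) D t =
      a ^ 2 * Kq (TG G₁) (TG G₁) D t + b ^ 2 * Kq (TG G₂) (TG G₂) D t +
        a * b * Kq (TG G₁) (TG G₂) D t + a * b * Kq (TG G₂) (TG G₁) D t := by
    simp only [Kq, TG, mul_sum, ← sum_add_distrib]
    exact sum_congr rfl fun e _ => sum_congr rfl fun f _ => by ring
  have k1 := mul_nonneg (sq_nonneg a) (p11 D hD t)
  have k2 := mul_nonneg (sq_nonneg b) (p22 D hD t)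
  have k3 := mul_nonneg (mul_nonneg ha hb) (p12 D hD t)
  have k4 := mul_nonneg (mul_nonneg ha hb) (p12.symm D hD t)
  rw [e]
  obtain rfl : b = 1 - a := by linarith only [hab]
  linarith only [k1, k2, k3, k4]

theorem DGau_mN {G₁ G₂ : V → ℝ} (n₁ : ∀ w, 0 ≤ G₁ w) (n₂ : ∀ w, 0 ≤ G₂ w) (a b : ℝ) (N : ℕ)
    (d : Dir) : a * b * XN G₁ G₂ N d ≤ mN (fun w => a * G₁ w + b * G₂ w) N d := by
  rw [XN, mul_sum]
  refine sum_le_sum fun z _ => ?_
  have k1 := mul_nonneg (pk_nonneg (2 * N) z)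
    (mul_nonneg (sq_nonneg a) (mul_nonneg (n₁ (z + dv d)) (n₁ (dv d - z))))
  have k2 := mul_nonneg (pk_nonneg (2 * N) z)
    (mul_nonneg (sq_nonneg b) (mul_nonneg (n₂ (z + dv d)) (n₂ (dv d - z))))
  linarith only [k1, k2]

theorem DGau_comb {H₁ H₂ G : V → ℝ} {g : Fin 3 → ℝ} (h₁ : Gauged H₁ g) (h₂ : Gauged H₂ g)
    (e : ∀ w, G w = 2 * H₁ w - H₂ w) : ∃ E, En True E fun w => G w * Real.exp (-hd g w) := by
  obtain ⟨-, -, E₁, -, -, k₁⟩ := h₁
  obtain ⟨-, -, E₂, -, -, k₂⟩ := h₂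
  refine ⟨8 * E₁ + 2 * E₂, fun Y hY => le_trans ?_ (add_le_add
    (mul_le_mul_of_nonneg_left (k₁ Y hY) (by norm_num))
    (mul_le_mul_of_nonneg_left (k₂ Y hY) (by norm_num)))⟩
  simp only [mul_sum, ← sum_add_distrib, e]
  refine sum_le_sum fun y _ => sum_le_sum fun d _ => sum_le_sum fun d' _ => ?_
  linarith only [sq_nonneg (2 * (H₁ (y + dv d) * Real.exp (-hd g (y + dv d)) -
    H₁ (y + dv d') * Real.exp (-hd g (y + dv d'))) + (H₂ (y + dv d) * Real.exp (-hd g (y + dv d)) -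
    H₂ (y + dv d') * Real.exp (-hd g (y + dv d'))))]

theorem DGau_gauged {G : V → ℝ} {g : Fin 3 → ℝ} {E l : ℝ} (q : ∀ w, ¬ IsEven w → 0 < G w)
    (hE : En True E fun w => G w * Real.exp (-hd g w))
    (hl : Tendsto (fun w => G w * Real.exp (-hd g w)) (NGauge_L False) (𝓝 l)) (l0 : 0 < l) :
    Gauged G g := by
  obtain ⟨B, hB⟩ := NGauge_bdd hl
  obtain ⟨F, hF⟩ := NGauge_ev.1 (hl.eventually (Ici_mem_nhds (half_lt_self l0)))
  have key : ∀ F : Finset V, ∃ m, 0 < m ∧ ∀ w ∈ F, ¬ IsEven w →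
      m ≤ G w * Real.exp (-hd g w) := fun F => by
    induction F using Finset.induction_on with
    | empty => exact ⟨1, one_pos, by simp⟩
    | insert a F _ ih =>
      obtain ⟨m, hm, h⟩ := ih
      by_cases ha : IsEven a
      · exact ⟨m, hm, fun w hw o =>
          (mem_insert.1 hw).elim (fun e => absurd (e ▸ ha) o) fun k => h w k o⟩
      · exact ⟨min m (G a * Real.exp (-hd g a)), lt_min hm (mul_pos (q a ha) (Real.exp_pos _)),
          fun w hw o => (mem_insert.1 hw).elim (fun e => e ▸ min_le_right _ _)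
            fun k => (min_le_left _ _).trans (h w k o)⟩
  obtain ⟨m, hm, h⟩ := key F
  refine ⟨min m (l / 2), B, E, lt_min hm (half_pos l0), fun w hw =>
    ⟨?_, (le_abs_self _).trans (hB w (iff_false_intro hw))⟩, hE⟩
  by_cases k : w ∈ F
  · exact (min_le_left _ _).trans (h w k hw)
  · exact (min_le_right _ _).trans (hF w k (iff_false_intro hw))

theorem DGau_tend {σ : V → V} (hσ : Function.Injective σ) (p : ∀ z, IsEven z → ¬ IsEven (σ z)) :
    Tendsto σ (NGauge_L True) (NGauge_L False) :=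
  tendsto_inf.2 ⟨hσ.tendsto_cofinite.mono_left inf_le_left,
    tendsto_principal.2 ((NGauge_par True).mono fun z k => iff_false_intro (p z (k.2 trivial)))⟩

/-- A common gauge from mixed order in two opposite directions. -/
theorem gauged_pair {G₁ G₂ : V → ℝ} (n₁ : ∀ w, 0 ≤ G₁ w) (n₂ : ∀ w, 0 ≤ G₂ w)
    (q₁ : ∀ w, ¬ IsEven w → 0 < G₁ w) (q₂ : ∀ w, ¬ IsEven w → 0 < G₂ w)
    (o₁ : ∀ d, G₁ (dv d) ≤ 1) (o₂ : ∀ d, G₂ (dv d) ≤ 1) (p11 : PSD (TG G₁) (TG G₁) 2)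
    (p22 : PSD (TG G₂) (TG G₂) 2) (p12 : PSD (TG G₁) (TG G₂) 2)
    (l11 : ∀ w, ¬ IsEven w → G₁ w * G₁ (e0 + e0 - w) ≤ 1)
    (l12 : ∀ w, ¬ IsEven w → G₁ w * G₂ (e0 + e0 - w) ≤ 1)
    (l21 : ∀ w, ¬ IsEven w → G₂ w * G₁ (e0 + e0 - w) ≤ 1)
    (l22 : ∀ w, ¬ IsEven w → G₂ w * G₂ (e0 + e0 - w) ≤ 1) {d : Dir} {c : ℝ} (hc : 0 < c) {N₁ : ℕ}
    (h : ∀ N ≥ N₁, c ≤ XN G₁ G₂ N d ∧ c ≤ XN G₁ G₂ N (d.1, !d.2)) :
    ∃ g, Gauged G₁ g ∧ Gauged G₂ g := by
  have key : ∀ a b : ℝ, 0 < a → 0 < b → a + b = 1 →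
      ∃ g, Gauged (fun w => a * G₁ w + b * G₂ w) g := fun a b ha hb hab => by
    have h0 : ∀ w, 0 ≤ a * G₁ w + b * G₂ w := fun w =>
      add_nonneg (mul_nonneg ha.le (n₁ w)) (mul_nonneg hb.le (n₂ w))
    have h1 : ∀ d, a * G₁ (dv d) + b * G₂ (dv d) ≤ 1 := fun d => by
      linarith only [mul_le_mul_of_nonneg_left (o₁ d) ha.le, mul_le_mul_of_nonneg_left (o₂ d) hb.le,
        hab]
    have hp := DGau_psd p11 p22 p12 ha.le hb.le hab
    refine gauge_h h0 (fun w hw => add_pos (mul_pos ha (q₁ w hw)) (mul_pos hb (q₂ w hw))) h1 hp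
      (DGau_lro h0 h1 hp (d := d) (mul_pos (mul_pos ha hb) hc) (N₁ := N₁) fun N hN => ⟨?_, ?_⟩)
    · exact (mul_le_mul_of_nonneg_left (h N hN).1 (mul_pos ha hb).le).trans (DGau_mN n₁ n₂ a b N _)
    · exact (mul_le_mul_of_nonneg_left (h N hN).2 (mul_pos ha hb).le).trans (DGau_mN n₁ n₂ a b N _)
  obtain ⟨g, hg⟩ := key (2 / 3) (1 / 3) (by norm_num) (by norm_num) (by norm_num)
  obtain ⟨g', hg'⟩ := key (1 / 3) (2 / 3) (by norm_num) (by norm_num) (by norm_num)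
  obtain rfl : g = g' := gauge_eq hg hg' fun w hw => by
    linarith only [l11 w hw, l12 w hw, l21 w hw, l22 w hw]
  obtain ⟨E₁, k₁⟩ := DGau_comb (G := G₁) hg hg' fun w => by ring
  obtain ⟨E₂, k₂⟩ := DGau_comb (G := G₂) hg' hg fun w => by ring
  obtain ⟨a₁, t₁⟩ := NGauge_lim (b' := False) (by tauto) k₁
  obtain ⟨a₂, t₂⟩ := NGauge_lim (b' := False) (by tauto) k₂
  have := NGauge_neBot False
  have b₁ : 0 ≤ a₁ := ge_of_tendsto' t₁ fun w => mul_nonneg (n₁ w) (Real.exp_pos _).le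
  have b₂ : 0 ≤ a₂ := ge_of_tendsto' t₂ fun w => mul_nonneg (n₂ w) (Real.exp_pos _).le
  have u₁ := DGau_tend (add_left_injective (dv d)) fun z hz k => isEven_add_dv.1 k hz
  have u₂ := DGau_tend (σ := fun z => dv d - z) sub_right_injective fun z hz k =>
    not_isEven_dv d ((NGauge_sub.1 k).2 hz)
  have T := (((t₁.comp u₁).mul (t₂.comp u₂)).add ((t₂.comp u₁).mul (t₁.comp u₂))).mul_const
    (Real.exp (hd g (dv d) + hd g (dv d)))
  have m := NGauge_mean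
    (W := fun z => G₁ (z + dv d) * G₂ (dv d - z) + G₂ (z + dv d) * G₁ (dv d - z))
    (fun z => add_nonneg (mul_nonneg (n₁ _) (n₂ _)) (mul_nonneg (n₂ _) (n₁ _)))
    (T.congr fun z => by
      have e : Real.exp (-hd g (z + dv d)) * Real.exp (-hd g (dv d - z)) *
          Real.exp (hd g (dv d) + hd g (dv d)) = 1 := by
        rw [← Real.exp_add, ← Real.exp_add, NGauge_hd_add, NGauge_hd_sub, Real.exp_eq_one_iff]
        ring
      simp only [Function.comp]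
      linear_combination
        (G₁ (z + dv d) * G₂ (dv d - z) + G₂ (z + dv d) * G₁ (dv d - z)) * e)
    fun N hN => (h N hN).1
  have r : 0 < a₁ * a₂ := by
    have := (mul_pos_iff_of_pos_right (Real.exp_pos _)).1 (hc.trans_le m)
    linarith only [this]
  exact ⟨g, DGau_gauged q₁ k₁ t₁ (b₁.lt_of_ne fun e => by rw [← e, zero_mul] at r; exact r.false),
    DGau_gauged q₂ k₂ t₂ (b₂.lt_of_ne fun e => by rw [← e, mul_zero] at r; exact r.false)⟩

end Pool.Agent.Work.MP_5cb0a4_pr.Z
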