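import Pool.Agent.Work.MP_5cb0a4_pr.D.Sw
import Pool.Agent.Work.MP_5cb0a4_pr.D.Gau

/-! Finitely many infinite components force mixed order in two opposite directions. -/

open MeasureTheory Finset Filter Topology
open scoped Classical

namespace Pool.Agent.Work.MP_5cb0a4_pr.Z

/-- At most `n` infinite components, and `x` lies on one of them. -/
def Rn (n : ℕ) (x : V) : Set (Dimer × Dimer) :=
  {p | p ∉ Ik (n + 1) ∧ {y | Conn p.1.1 p.2.1 x y}.Infinite}

/-- In addition the first configuration uses the direction `d` at `x`. -/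
def Use (n : ℕ) (d : Dir) (x : V) : Set (Dimer × Dimer) := Rn n x ∩ {p | p.1.1 x = x + dv d}

/-- Two connected points at which the first configuration uses the direction `d`. -/
def Cn (d : Dir) (x x' : V) : Set (Dimer × Dimer) :=
  {p | p.1.1 x = x + dv d ∧ p.1.1 x' = x' + dv d ∧ Conn p.1.1 p.2.1 x x'}

theorem DDen_ed (x y : V) : MeasurableSet {p : Dimer × Dimer | p.1.1 x = y} :=
  ((Meas_eval x).comp measurable_fst) (measurableSet_singleton y)

theorem meas_Rn (n : ℕ) (x : V) : MeasurableSet (Rn n x) := by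
  refine (measurableSet_Ik (n + 1)).compl.inter
    (s₂ := {p : Dimer × Dimer | {y | Conn p.1.1 p.2.1 x y}.Infinite}) ?_
  simp only [Paths_inf]
  exact measurableSet_setOfPred.2
    (Measurable.forall fun F => Measurable.exists fun y => (Paths_meas _ y).and measurable_const)

theorem meas_Use (n : ℕ) (d : Dir) (x : V) : MeasurableSet (Use n d x) :=
  (meas_Rn n x).inter (DDen_ed _ _)

theorem meas_Cn (d : Dir) (x x' : V) : MeasurableSet (Cn d x x') :=
  (DDen_ed _ _).inter ((DDen_ed _ _).inter (measurableSet_setOfPred.2 (Paths_meas x x')))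

theorem DDen_conn (σ₁ σ₂ : V → V) (v x y : V) :
    Conn (sh v σ₁) (sh v σ₂) (x + v) (y + v) ↔ Conn σ₁ σ₂ x y :=
  ⟨fun h => by simpa only [sh_sh, neg_add_cancel, sh_zero, add_neg_cancel_right]
    using Paths_sh (-v) h, Paths_sh v⟩

theorem DDen_sh (σ : V → V) (v x : V) (d : Dir) : sh v σ (x + v) = x + v + dv d ↔ σ x = x + dv d := by
  rw [sh, add_sub_cancel_right, add_right_comm, add_left_inj]

theorem DDen_Rn (n : ℕ) (v x : V) :
    (fun p : Dimer × Dimer => (shift v p.1, shift v p.2)) ⁻¹' Rn n (x + v) = Rn n x := by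
  ext p
  refine and_congr (not_congr (Set.ext_iff.1 (Ik_shift (n + 1) v) p)) ?_
  have e : {y | Conn (sh v p.1.1) (sh v p.2.1) (x + v) y} =
      (· + v) '' {y | Conn p.1.1 p.2.1 x y} := by
    ext y
    refine ⟨fun h => ⟨y - v, (DDen_conn _ _ v _ _).1 (by rwa [sub_add_cancel]), sub_add_cancel _ _⟩,
      ?_⟩
    rintro ⟨y, h, rfl⟩
    exact Paths_sh v h
  exact (show {y | Conn (sh v p.1.1) (sh v p.2.1) (x + v) y}.Infinite ↔ _ by
    rw [e, Set.infinite_image_iff (add_left_injective v).injOn])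

theorem DDen_inv {ν₁ ν₂ : Measure Dimer} (h₁ : IM ν₁) (h₂ : IM ν₂) {v : V} (hv : IsEven v)
    {A B : Set (Dimer × Dimer)} (hA : MeasurableSet A)
    (e : (fun p : Dimer × Dimer => (shift v p.1, shift v p.2)) ⁻¹' A = B) :
    (ν₁.prod ν₂) A = (ν₁.prod ν₂) B := by
  have := h₁.prob
  have := h₂.prob
  have hT : MeasurePreserving (fun p : Dimer × Dimer => (shift v p.1, shift v p.2))
      (ν₁.prod ν₂) (ν₁.prod ν₂) := (h₁.inv v hv).prod (h₂.inv v hv)
  rw [← e, hT.measure_preimage hA.nullMeasurableSet]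

theorem inv_Rn {ν₁ ν₂ : Measure Dimer} (h₁ : IM ν₁) (h₂ : IM ν₂) (n : ℕ) {v : V} (hv : IsEven v) :
    (ν₁.prod ν₂) (Rn n v) = (ν₁.prod ν₂) (Rn n 0) :=
  DDen_inv h₁ h₂ hv (meas_Rn _ _) (by simpa only [zero_add] using DDen_Rn n v 0)

theorem inv_Use {ν₁ ν₂ : Measure Dimer} (h₁ : IM ν₁) (h₂ : IM ν₂) (n : ℕ) (d : Dir) {v : V}
    (hv : IsEven v) : (ν₁.prod ν₂) (Use n d v) = (ν₁.prod ν₂) (Use n d 0) := by
  refine DDen_inv h₁ h₂ hv (meas_Use _ _ _) ?_
  have e := DDen_Rn n v 0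
  rw [zero_add] at e
  rw [Use, Set.preimage_inter, e, Use]
  refine congrArg _ (Set.ext fun p => ?_)
  have a := DDen_sh p.1.1 v 0 d
  rw [zero_add] at a
  exact a

theorem inv_Cn {ν₁ ν₂ : Measure Dimer} (h₁ : IM ν₁) (h₂ : IM ν₂) (d : Dir) {v : V}
    (hv : IsEven v) (x : V) : (ν₁.prod ν₂) (Cn d v x) = (ν₁.prod ν₂) (Cn d 0 (x - v)) := by
  refine DDen_inv h₁ h₂ hv (meas_Cn _ _ _) (Set.ext fun p => ?_)
  have a := DDen_sh p.1.1 v 0 d
  have b := DDen_sh p.1.1 v (x - v) d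
  have c := DDen_conn p.1.1 p.2.1 v 0 (x - v)
  rw [zero_add] at a c
  rw [sub_add_cancel] at b c
  exact and_congr a (and_congr b c)

theorem DDen_cl (p : Dimer × Dimer) (x x' : V) :
    {y | Conn p.1.1 p.2.1 x y} = {y | Conn p.1.1 p.2.1 x' y} ↔ Conn p.1.1 p.2.1 x x' :=
  ⟨fun e => (Set.ext_iff.1 e x').2 Relation.ReflTransGen.refl, fun h => Set.ext fun _ =>
    ⟨fun k => Relation.ReflTransGen.trans (h.symm (isExt_dimer _) (isExt_dimer _)) k,
      fun k => Relation.ReflTransGen.trans h k⟩⟩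

theorem DDen_card {n : ℕ} {p : Dimer × Dimer} {T : Finset V} (h : ∀ x ∈ T, p ∈ Rn n x) :
    (T.image fun x => {y | Conn p.1.1 p.2.1 x y}).card ≤ n := by
  by_contra k
  obtain ⟨f⟩ := Function.Embedding.nonempty_of_card_le (α := Fin (n + 1))
    (β := T.image fun x => {y | Conn p.1.1 p.2.1 x y}) (by
      rw [Fintype.card_fin, Fintype.card_coe]
      omega)
  choose x hx e using fun i => mem_image.1 (f i).2
  refine (h _ (hx 0)).1 ⟨x, fun i => (h _ (hx i)).2, fun i j hij c => hij (f.injective ?_)⟩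
  exact Subtype.ext ((e i).symm.trans (((DDen_cl p _ _).2 c).trans (e j)))

theorem DDen_cs {α β : Type} (T : Finset α) (κ : α → β) (w : α → ℝ) : (∑ x ∈ T, w x) ^ 2 ≤
    (T.image κ).card * ∑ x ∈ T, ∑ x' ∈ T, if κ x = κ x' then w x * w x' else 0 := by
  have e1 : ∑ x ∈ T, w x = ∑ C ∈ T.image κ, ∑ x ∈ T with κ x = C, w x :=
    (sum_fiberwise_of_maps_to (fun x hx => mem_image_of_mem κ hx) w).symm
  have e2 : ∑ x ∈ T, ∑ x' ∈ T, (if κ x = κ x' then w x * w x' else 0) =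
      ∑ C ∈ T.image κ, (∑ x ∈ T with κ x = C, w x) ^ 2 := by
    rw [← sum_fiberwise_of_maps_to (fun x hx => mem_image_of_mem κ hx)]
    refine sum_congr rfl fun C _ => ?_
    rw [pow_two, sum_mul_sum]
    refine sum_congr rfl fun x hx => ?_
    rw [sum_filter]
    refine sum_congr rfl fun x' _ => ?_
    rw [(mem_filter.1 hx).2]
    exact if_congr eq_comm rfl rfl
  rw [e1, e2]
  exact sq_sum_le_card_mul_sum_sq

theorem DDen_int {Ω ι : Type} [MeasurableSpace Ω] (μ : Measure Ω) [IsFiniteMeasure μ] (S : Finset ι)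
    (c : ι → ℝ) {A : ι → Set Ω} (hA : ∀ i, MeasurableSet (A i)) :
    Integrable (fun p => ∑ i ∈ S, c i * (A i).indicator 1 p) μ ∧
      ∫ p, ∑ i ∈ S, c i * (A i).indicator 1 p ∂μ = ∑ i ∈ S, c i * μ.real (A i) := by
  have k : ∀ i, Integrable (fun p => c i * (A i).indicator 1 p) μ := fun i =>
    ((integrable_const (1 : ℝ)).indicator (hA i)).const_mul _
  refine ⟨integrable_finsetSum _ fun i _ => k i, ?_⟩
  rw [integral_finsetSum _ fun i _ => k i]
  exact sum_congr rfl fun i _ => by rw [integral_const_mul, integral_indicator_one (hA i)]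

theorem DDen_conv (n m : ℕ) (φ : V → ℝ) : ∑ z ∈ box (m + n), pk (m + n) z * φ z =
    ∑ u ∈ box n, pk n u * ∑ u' ∈ box m, pk m u' * φ (u' + u) := by
  induction n generalizing φ with
  | zero =>
    have h : (0 : V) ∈ box 0 := mem_box.2 fun i => by simp
    simp only [pk, ite_mul, one_mul, zero_mul, sum_ite_eq', if_pos h, add_zero]
  | succ n ih =>
    rw [← add_assoc, NScale_W, NScale_W, ih]
    refine sum_congr rfl fun u _ => congrArg _ ?_
    simp only [Harm_P, mul_div_assoc', ← sum_div, mul_sum, add_assoc]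
    rw [sum_comm]

theorem DDen_point (n : ℕ) (d : Dir) (S : Finset V) {w : V → ℝ} (hw : ∀ u, 0 ≤ w u) (c : V)
    (p : Dimer × Dimer) : (∑ u ∈ S, w u * (Use n d (u + c)).indicator 1 p) ^ 2 ≤
      n * ∑ q ∈ S ×ˢ S, w q.1 * w q.2 * (Cn d (q.1 + c) (q.2 + c)).indicator 1 p := by
  have e : ∑ u ∈ S, w u * (Use n d (u + c)).indicator 1 p =
      ∑ u ∈ S with p ∈ Use n d (u + c), w u := by
    rw [sum_filter]
    exact sum_congr rfl fun u _ => by by_cases k : p ∈ Use n d (u + c) <;> simp [k]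
  have a := DDen_card (n := n) (p := p) (T := (S.filter fun u => p ∈ Use n d (u + c)).image (· + c))
    fun x hx => by
      obtain ⟨u, hu, rfl⟩ := mem_image.1 hx
      exact (mem_filter.1 hu).2.1
  rw [image_image] at a
  rw [e]
  refine (DDen_cs _ (fun u => {y | Conn p.1.1 p.2.1 (u + c) y}) w).trans (mul_le_mul
    (Nat.cast_le.2 a) ?_ (sum_nonneg fun _ _ => sum_nonneg fun _ _ => ?_) (Nat.cast_nonneg _))
  · rw [← sum_product']
    refine le_trans (sum_le_sum fun q hq => ?_) (sum_le_sum_of_subset_of_nonneg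
      (product_subset_product (filter_subset _ _) (filter_subset _ _)) fun q _ _ =>
        mul_nonneg (mul_nonneg (hw _) (hw _)) (Set.indicator_nonneg (fun _ _ => zero_le_one) _))
    split_ifs with k
    · rw [Set.indicator_of_mem (show p ∈ Cn d (q.1 + c) (q.2 + c) from
        ⟨(mem_filter.1 (mem_product.1 hq).1).2.2, (mem_filter.1 (mem_product.1 hq).2).2.2,
          (DDen_cl p _ _).1 k⟩), Pi.one_apply, mul_one]
    · exact mul_nonneg (mul_nonneg (hw _) (hw _)) (Set.indicator_nonneg (fun _ _ => zero_le_one) _)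
  · split_ifs
    exacts [mul_nonneg (hw _) (hw _), le_rfl]

theorem DDen_mean {ν₁ ν₂ : Measure Dimer} (h₁ : IM ν₁) (h₂ : IM ν₂) (n : ℕ) (d : Dir) (N : ℕ) :
    (ν₁.prod ν₂).real (Use n d 0) ^ 2 ≤
      n * ∑ z ∈ box (2 * N), pk (2 * N) z * (ν₁.prod ν₂).real (Cn d 0 z) := by
  have := h₁.prob
  have := h₂.prob
  let c : V := Pi.single 0 (N : ℤ)
  have ev : ∀ u, pk N u ≠ 0 → IsEven (u + c) := fun u hu => by
    rw [isEven_add, pk_parity hu]
    simp [c, IsEven]
  obtain ⟨i₁, e₁⟩ := DDen_int (ν₁.prod ν₂) (box N) (pk N) fun u => meas_Use n d (u + c)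
  obtain ⟨i₂, e₂⟩ := DDen_int (ν₁.prod ν₂) (box N ×ˢ box N) (fun q => pk N q.1 * pk N q.2)
    fun q => meas_Cn d (q.1 + c) (q.2 + c)
  set q := (ν₁.prod ν₂).real (Use n d 0) with hq
  have e₃ : ∑ u ∈ box N, pk N u * (ν₁.prod ν₂).real (Use n d (u + c)) = q := by
    rw [← one_mul q, ← sum_pk N, sum_mul]
    refine sum_congr rfl fun u _ => ?_
    by_cases k : pk N u = 0
    · rw [k, zero_mul, zero_mul]
    · rw [measureReal_def, inv_Use h₁ h₂ n d (ev u k)]
      rfl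
  have e₄ : ∑ q ∈ box N ×ˢ box N, pk N q.1 * pk N q.2 *
      (ν₁.prod ν₂).real (Cn d (q.1 + c) (q.2 + c)) =
      ∑ z ∈ box (2 * N), pk (2 * N) z * (ν₁.prod ν₂).real (Cn d 0 z) := by
    rw [two_mul, DDen_conv, ← NGram_neg, sum_product]
    refine sum_congr rfl fun u _ => ?_
    rw [mul_sum]
    refine sum_congr rfl fun u' _ => ?_
    by_cases k : pk N u = 0
    · rw [k, zero_mul, zero_mul, zero_mul]
    · rw [measureReal_def, inv_Cn h₁ h₂ d (ev u k), add_sub_add_right_eq_sub, sub_eq_add_neg,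
        mul_assoc]
      rfl
  have k := integral_mono ((i₁.const_mul (2 * q)).sub (integrable_const (q ^ 2))) (i₂.const_mul n)
    fun p => le_trans (by
      rw [Pi.sub_apply]
      linarith only [sq_nonneg (q - ∑ u ∈ box N, pk N u * (Use n d (u + c)).indicator 1 p)])
      (DDen_point n d (box N) (pk_nonneg N) c p)
  rw [integral_sub' (i₁.const_mul (2 * q)) (integrable_const _), integral_const_mul,
    integral_const_mul, e₁, e₂, e₃, e₄, integral_const, probReal_univ, one_smul] at k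
  linarith only [k]

/-- A direction used with positive probability has mixed order. -/
theorem XN_lower {ν₁ ν₂ : Measure Dimer} (h₁ : IM ν₁) (h₂ : IM ν₂) (p₁ : FinPos ν₁) (p₂ : FinPos ν₂)
    {n : ℕ} {d : Dir} (hq : (ν₁.prod ν₂) (Use n d 0) ≠ 0) :
    ∃ c : ℝ, 0 < c ∧ ∃ N₁, ∀ N ≥ N₁, c ≤ XN (Gbar ν₁) (Gbar ν₂) N d := by
  have := h₁.prob
  have := h₂.prob
  have q0 : 0 < (ν₁.prod ν₂).real (Use n d 0) := ENNReal.toReal_pos hq (measure_ne_top _ _)
  set q := (ν₁.prod ν₂).real (Use n d 0) with hq'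
  obtain ⟨n₀, hn⟩ := pk_small (ε := q ^ 2 / (2 * (n + 1))) (by positivity)
  refine ⟨q ^ 2 / (2 * (n + 1)), by positivity, n₀, fun N hN => ?_⟩
  have a := DDen_mean h₁ h₂ n d N
  have h0 : (0 : V) ∈ box (2 * N) := mem_box.2 fun i => by simp
  have b : ∑ z ∈ box (2 * N), pk (2 * N) z * (ν₁.prod ν₂).real (Cn d 0 z) ≤
      XN (Gbar ν₁) (Gbar ν₂) N d + pk (2 * N) 0 := by
    rw [XN, ← if_pos (t := pk (2 * N) 0) (e := 0) h0, ← sum_ite_eq' (box (2 * N)) 0 (pk (2 * N)),
      ← sum_add_distrib]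
    refine sum_le_sum fun z _ => ?_
    have p0 := pk_nonneg (2 * N) z
    split_ifs with k
    · have := mul_le_mul_of_nonneg_left (measureReal_le_one (μ := ν₁.prod ν₂) (s := Cn d 0 z)) p0
      have := mul_nonneg p0 (add_nonneg
        (mul_nonneg (Gbar_nonneg ν₁ (z + dv d)) (Gbar_nonneg ν₂ (dv d - z)))
        (mul_nonneg (Gbar_nonneg ν₂ (z + dv d)) (Gbar_nonneg ν₁ (dv d - z))))
      linarith
    · rw [add_zero]
      rcases p0.eq_or_lt with e | e
      · rw [← e, zero_mul, zero_mul]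
      · refine mul_le_mul_of_nonneg_left ?_ p0
        simpa only [Cn, zero_add] using
          conn_le h₁ h₂ p₁ p₂ ((pk_parity e.ne').2 (even_two_mul _)) k d
  have c := hn (2 * N) (by omega) 0
  have s0 : 0 ≤ ∑ z ∈ box (2 * N), pk (2 * N) z * (ν₁.prod ν₂).real (Cn d 0 z) :=
    sum_nonneg fun _ _ => mul_nonneg (pk_nonneg _ _) measureReal_nonneg
  have e : q ^ 2 / (n + 1) ≤ ∑ z ∈ box (2 * N), pk (2 * N) z * (ν₁.prod ν₂).real (Cn d 0 z) := by
    rw [div_le_iff₀ (by positivity)]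
    linarith only [a, s0]
  have f : q ^ 2 / (n + 1) = 2 * (q ^ 2 / (2 * (n + 1))) := by field_simp
  linarith only [b, c, e, f]

theorem DDen_swap {n : ℕ} {x : V} {p : Dimer × Dimer} (h : p ∈ Rn n x) : p.swap ∈ Rn n x :=
  ⟨fun ⟨y, a, b⟩ => h.1 ⟨y, fun i => (a i).mono fun _ k => Conn.swap k,
    fun i j hij k => b i j hij k.swap⟩, h.2.mono fun _ k => Conn.swap k⟩

theorem DDen_Rn_conn {n : ℕ} {x v : V} {p : Dimer × Dimer} (h : p ∈ Rn n x)
    (c : Conn p.1.1 p.2.1 x v) : p ∈ Rn n v :=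
  ⟨h.1, (DDen_cl p _ _).2 c ▸ h.2⟩

/-- The height in the direction of a sign vector. -/
def ht (σ : Fin 3 → Bool) (x : V) : ℤ := ∑ i, if σ i then x i else -x i

theorem ht_step (σ : Fin 3 → Bool) (x : V) (i : Fin 3) : ht σ (x + dv (i, σ i)) = ht σ x + 1 := by
  have e : ∀ j, (if σ j then (x + dv (i, σ i)) j else -(x + dv (i, σ i)) j) =
      (if σ j then x j else -x j) + if j = i then 1 else 0 := fun j => by
    by_cases k : j = i
    · subst k
      cases h : σ j <;> simp [dv, add_comm]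
    · simp [dv, k]
  simp only [ht, e, sum_add_distrib, sum_ite_eq', mem_univ, if_true]

theorem DDen_slab {n : ℕ} {σ : Fin 3 → Bool} {p : Dimer × Dimer}
    (h : ∀ x, IsEven x → ∀ i, p ∉ Use n (i, !σ i) x ∧ p.swap ∉ Use n (i, !σ i) x) {x v : V}
    (hx : p ∈ Rn n x) (c : Conn p.1.1 p.2.1 x v) :
    (if IsEven v then ht σ v else ht σ v - 1) = if IsEven x then ht σ x else ht σ x - 1 := by
  have one : ∀ q : Dimer × Dimer, (∀ x, IsEven x → ∀ i, q ∉ Use n (i, !σ i) x) → ∀ u, IsEven u →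
      q ∈ Rn n u → ht σ (q.1.1 u) = ht σ u + 1 := fun q hq u hu k => by
    obtain ⟨⟨i, b⟩, e⟩ := nbr_iff.1 (q.1.2 u).1
    have : b = σ i := by
      by_contra hb
      exact hq u hu i ⟨k, (Bool.eq_not_of_ne hb) ▸ e⟩
    rw [e, this, ht_step]
  have two : ∀ q : Dimer × Dimer, (∀ x, IsEven x → ∀ i, q ∉ Use n (i, !σ i) x) → ∀ u,
      q ∈ Rn n u → (if IsEven (q.1.1 u) then ht σ (q.1.1 u) else ht σ (q.1.1 u) - 1) =
        if IsEven u then ht σ u else ht σ u - 1 := fun q hq u k => by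
    have pa := nbr_parity (q.1.2 u).1
    by_cases hu : IsEven u
    · rw [if_neg fun e => pa.1 e hu, if_pos hu, one q hq u hu k, add_sub_cancel_right]
    · have := one q hq _ (pa.2 hu) (DDen_Rn_conn k (.single (.inl rfl)))
      rw [(q.1.2 u).2] at this
      rw [if_pos (pa.2 hu), if_neg hu, this, add_sub_cancel_right]
  induction c with
  | refl => rfl
  | tail c s ih =>
    rw [← ih]
    rcases s with rfl | rfl
    · exact two p (fun x a i => (h x a i).1) _ (DDen_Rn_conn hx c)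
    · exact two p.swap (fun x a i => (h x a i).2) _ (DDen_swap (DDen_Rn_conn hx c))

/-- Two opposite directions are used. -/
theorem opp_pair {ν₁ ν₂ : Measure Dimer} (h₁ : IM ν₁) (h₂ : IM ν₂) {n : ℕ}
    (h : (ν₁.prod ν₂) (Ik 1 \ Ik (n + 1)) ≠ 0) : ∃ d : Dir,
      ((ν₁.prod ν₂) (Use n d 0) ≠ 0 ∨ (ν₂.prod ν₁) (Use n d 0) ≠ 0) ∧
        ((ν₁.prod ν₂) (Use n (d.1, !d.2) 0) ≠ 0 ∨ (ν₂.prod ν₁) (Use n (d.1, !d.2) 0) ≠ 0) := by
  have := h₁.prob
  have := h₂.prob
  by_contra k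
  have k1 : ∀ i : Fin 3, ∃ b : Bool, (ν₁.prod ν₂) (Use n (i, !b) 0) = 0 ∧
      (ν₂.prod ν₁) (Use n (i, !b) 0) = 0 := fun i => by
    by_contra k2
    refine k ⟨(i, true), ?_, ?_⟩
    · exact not_and_or.1 fun e => k2 ⟨false, e⟩
    · exact not_and_or.1 fun e => k2 ⟨true, e⟩
  choose σ hσ using k1
  have ae : ∀ᵐ p ∂(ν₁.prod ν₂), ∀ x, IsEven x → ∀ i,
      p ∉ Use n (i, !σ i) x ∧ p.swap ∉ Use n (i, !σ i) x := by
    refine ae_all_iff.2 fun x => eventually_imp_distrib_left.2 fun hx => ae_all_iff.2 fun i =>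
      Eventually.and (measure_eq_zero_iff_ae_notMem.1 ((inv_Use h₁ h₂ n _ hx).trans (hσ i).1)) ?_
    exact Measure.measurePreserving_swap.quasiMeasurePreserving.ae
      (measure_eq_zero_iff_ae_notMem.1 ((inv_Use h₂ h₁ n _ hx).trans (hσ i).2))
  let pt : ℕ → V := fun j => Pi.single 0 (2 * (j : ℤ))
  have ev : ∀ j, IsEven (pt j) := fun j => by simp [pt, IsEven]
  have hp : ∀ j j', ht σ (pt j) = ht σ (pt j') → j = j' := fun j j' e => by
    simp only [ht, pt, Fin.sum_univ_three] at e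
    cases hb : σ 0 <;> simp [hb] at e <;> omega
  have bd : ∀ M : ℕ, M * (ν₁.prod ν₂).real (Rn n 0) ≤ n := fun M => by
    obtain ⟨i₁, e₁⟩ := DDen_int (ν₁.prod ν₂) (range M) (fun _ => 1) fun j => meas_Rn n (pt j)
    have a := integral_mono_ae i₁ (integrable_const (n : ℝ)) (ae.mono fun p hp' => by
      have b := DDen_card (n := n) (p := p) (T := ((range M).filter fun j => p ∈ Rn n (pt j)).image pt)
        fun x hx => by
          obtain ⟨j, hj, rfl⟩ := mem_image.1 hx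
          exact (mem_filter.1 hj).2
      rw [image_image, card_image_of_injOn fun j hj j' _ e => hp j j' (by
        have := DDen_slab hp' (mem_filter.1 (mem_coe.1 hj)).2 ((DDen_cl p _ _).1 e)
        rw [if_pos (ev _), if_pos (ev _)] at this
        exact this.symm)] at b
      refine le_trans (le_of_eq ?_) (Nat.cast_le.2 b)
      rw [card_filter, Nat.cast_sum]
      exact sum_congr rfl fun j _ => by by_cases q : p ∈ Rn n (pt j) <;> simp [q])
    rw [e₁, integral_const, probReal_univ, one_smul,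
      sum_congr rfl fun j _ => by rw [one_mul, measureReal_def, inv_Rn h₁ h₂ n (ev j)]] at a
    rwa [sum_const, card_range, nsmul_eq_mul] at a
  have z : (ν₁.prod ν₂) (Rn n 0) = 0 := by
    by_contra e
    have q0 : 0 < (ν₁.prod ν₂).real (Rn n 0) := ENNReal.toReal_pos e (measure_ne_top _ _)
    obtain ⟨M, hM⟩ := exists_nat_gt (n / (ν₁.prod ν₂).real (Rn n 0))
    exact (bd M).not_gt ((div_lt_iff₀ q0).1 hM)
  refine h (measure_mono_null (t := ⋃ x : {x // IsEven x}, Rn n x.1) ?_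
    (measure_iUnion_null fun x => (inv_Rn h₁ h₂ n x.2).trans z))
  rintro p ⟨⟨x, a, -⟩, b⟩
  by_cases e : IsEven (x 0)
  · exact Set.mem_iUnion.2 ⟨⟨x 0, e⟩, b, a 0⟩
  · exact Set.mem_iUnion.2 ⟨⟨p.1.1 (x 0), (nbr_parity (p.1.2 _).1).2 e⟩,
      DDen_Rn_conn ⟨b, a 0⟩ (.single (.inl rfl))⟩

end Pool.Agent.Work.MP_5cb0a4_pr.Z
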