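import Pool.Agent.Work.MP_5cb0a4_pr.D.Uniq

/-! The probability that two independent samples of one ergodic Gibbs measure have no infinite
path is zero or the reciprocal of a positive integer. -/

open MeasureTheory Finset Filter Topology
open scoped Classical

namespace Pool.Agent.Work.MP_5cb0a4_pr.Z

/-- Sets of configurations that are not changed by finite modifications. -/
def DM_tail (E : Set Dimer) : Prop :=
  ∀ τ τ' : Dimer, {x | τ.1 x ≠ τ'.1 x}.Finite → τ ∈ E → τ' ∈ E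

lemma DM_mem {p : Dimer × Dimer} : p ∈ (Ik 1)ᶜ ↔ ∀ x, {y | Conn p.1.1 p.2.1 x y}.Finite :=
  ⟨fun h x => by_contra fun hx =>
    h ⟨fun _ => x, fun _ => hx, fun i j hij => absurd (Subsingleton.elim i j) hij⟩,
    fun h ⟨_, hx, _⟩ => hx 0 (h _)⟩

lemma DM_sec (σ : Dimer) : DM_tail ((fun τ : Dimer => (τ, σ)) ⁻¹' (Ik 1)ᶜ) := by
  intro τ τ' hf h
  have h' := DM_mem.1 h
  refine DM_mem.2 fun x => (((hf.image τ'.1).insert x).biUnion fun z _ => h' z).subset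
    fun y hy => ?_
  induction hy with
  | refl => exact Set.mem_biUnion (Set.mem_insert _ _) Relation.ReflTransGen.refl
  | @tail u w _ hs ih =>
    obtain ⟨z, hz, hu⟩ := Set.mem_iUnion₂.1 ih
    rcases hs with hs | hs
    · by_cases k : τ.1 u = τ'.1 u
      · exact Set.mem_biUnion hz (Relation.ReflTransGen.tail hu (Or.inl (k.trans hs)))
      · exact Set.mem_biUnion (Set.mem_insert_of_mem _ ⟨u, k, hs⟩) Relation.ReflTransGen.refl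
    · exact Set.mem_biUnion hz (Relation.ReflTransGen.tail hu (Or.inr hs))

lemma DM_dimer (F : Finset V) (p : Dimer × Dimer) (x : V) :
    Nbr x ((DU_Phi F (p.1.1, p.2.1)).1 x) ∧
      (DU_Phi F (p.1.1, p.2.1)).1 ((DU_Phi F (p.1.1, p.2.1)).1 x) = x := by
  refine ⟨?_, (isExt_swp (K := DU_K F p.1.1 p.2.1) (isExt_dimer p.1) (isExt_dimer p.2)
    (fun x ⟨z, hz, hc⟩ => ⟨z, hz, hc.tail (Or.inl rfl)⟩)
    (fun x ⟨z, hz, hc⟩ => ⟨z, hz, hc.tail (Or.inr rfl)⟩) x).2⟩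
  simp only [DU_Phi, swp]
  split_ifs
  · exact (p.2.2 x).1
  · exact (p.1.2 x).1

/-- The first configuration after the exchange. -/
noncomputable def DM_psi (F : Finset V) (p : Dimer × Dimer) : Dimer :=
  ⟨(DU_Phi F (p.1.1, p.2.1)).1, DM_dimer F p⟩

lemma DM_psi_meas (F : Finset V) : Measurable (DM_psi F) := by
  refine Measurable.subtype_mk (measurable_pi_iff.2 fun x => ?_)
  have m : MeasurableSet {p : Dimer × Dimer | x ∈ DU_K F p.1.1 p.2.1} :=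
    measurableSet_setOf.2 (Measurable.exists fun z => measurable_const.and (Paths_meas z x))
  have c : Measurable fun τ : Dimer => τ.1 x :=
    (measurable_pi_apply x).comp measurable_subtype_coe
  exact Measurable.ite m (c.comp measurable_snd) (c.comp measurable_fst)

lemma DM_sum {Λ F Λ' Γ : Finset V} (hF : Λ ⊆ F) {N : ℕ} (hΓ : box N ⊆ Γ) (σ₁ σ₂ c c' : V → V) :
    (∑ ρ₁ ∈ perf Γ σ₁, ∑ ρ₂ ∈ perf Γ σ₂,
      if (DU_B F N ρ₁ ρ₂ ∧ ∀ x ∈ Λ, ρ₁ x = c x) ∧ ∀ x ∈ Λ', (DU_Phi F (ρ₁, ρ₂)).1 x = c' x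
        then (1 : ℝ) else 0) =
    ∑ ρ₁ ∈ perf Γ σ₁, ∑ ρ₂ ∈ perf Γ σ₂,
      if (DU_B F N ρ₁ ρ₂ ∧ ∀ x ∈ Λ, ρ₂ x = c x) ∧ ∀ x ∈ Λ', ρ₁ x = c' x then (1 : ℝ) else 0 := by
  have hp : ∀ p ∈ perf Γ σ₁ ×ˢ perf Γ σ₂, DU_B F N p.1 p.2 →
      DU_Phi F p ∈ perf Γ σ₁ ×ˢ perf Γ σ₂ := by
    intro p hp h
    rw [mem_product] at hp ⊢
    have k₁ : ∀ x ∈ DU_K F p.1 p.2, p.1 x ∈ DU_K F p.1 p.2 := fun x ⟨z, hz, hc⟩ =>
      ⟨z, hz, hc.tail (Or.inl rfl)⟩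
    have k₂ : ∀ x ∈ DU_K F p.1 p.2, p.2 x ∈ DU_K F p.1 p.2 := fun x ⟨z, hz, hc⟩ =>
      ⟨z, hz, hc.tail (Or.inr rfl)⟩
    have hK : ∀ x ∈ DU_K F p.1 p.2, x ∈ Γ := fun x ⟨z, hz, hc⟩ => hΓ (h z hz x hc)
    exact ⟨DU_perf1 hp.1 hp.2 k₁ k₂ hK, DU_perf1 hp.2 hp.1 k₂ k₁ hK⟩
  rw [← sum_product' (f := fun ρ₁ ρ₂ : V → V =>
      if (DU_B F N ρ₁ ρ₂ ∧ ∀ x ∈ Λ, ρ₁ x = c x) ∧ ∀ x ∈ Λ', (DU_Phi F (ρ₁, ρ₂)).1 x = c' x
        then (1 : ℝ) else 0),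
    ← sum_product' (f := fun ρ₁ ρ₂ : V → V =>
      if (DU_B F N ρ₁ ρ₂ ∧ ∀ x ∈ Λ, ρ₂ x = c x) ∧ ∀ x ∈ Λ', ρ₁ x = c' x then (1 : ℝ) else 0),
    sum_boole, sum_boole]
  congr 1
  refine card_nbij' (DU_Phi F) (DU_Phi F) (fun p k => ?_) (fun p k => ?_)
    (fun p _ => DU_Phi_Phi F p) fun p _ => DU_Phi_Phi F p
  · rw [mem_coe, mem_filter] at k ⊢
    exact ⟨hp p k.1 k.2.1.1, ⟨DU_B_Phi k.2.1.1,
      fun x hx => (DU_on p (hF hx)).2.trans (k.2.1.2 x hx)⟩, k.2.2⟩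
  · rw [mem_coe, mem_filter] at k ⊢
    refine ⟨hp p k.1 k.2.1.1, ⟨DU_B_Phi k.2.1.1,
      fun x hx => (DU_on p (hF hx)).1.trans (k.2.1.2 x hx)⟩, fun x hx => ?_⟩
    exact (congrFun (congrArg Prod.fst (DU_Phi_Phi F p)) x).trans (k.2.2 x hx)

lemma DM_K_congr {F : Finset V} {N : ℕ} {σ₁ σ₂ σ₁' σ₂' : V → V}
    (h₁ : ∀ x ∈ box N, σ₁ x = σ₁' x) (h₂ : ∀ x ∈ box N, σ₂ x = σ₂' x) (h : DU_B F N σ₁ σ₂) :
    DU_K F σ₁ σ₂ ⊆ DU_K F σ₁' σ₂' := by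
  rintro y ⟨x, hx, hy⟩
  refine ⟨x, hx, ?_⟩
  induction hy with
  | refl => exact Relation.ReflTransGen.refl
  | tail hu hs ih => exact ih.tail (by rwa [← h₁ _ (h x hx _ hu), ← h₂ _ (h x hx _ hu)])

lemma DM_one {Λ F Λ' : Finset V} (hF : Λ ⊆ F) {N : ℕ} {c c' σ₁ σ₂ σ₁' σ₂' : V → V}
    (h₁ : ∀ x ∈ box N ∪ Λ', σ₁ x = σ₁' x) (h₂ : ∀ x ∈ box N ∪ Λ', σ₂ x = σ₂' x)
    (h : (DU_B F N σ₁ σ₂ ∧ ∀ x ∈ Λ, σ₁ x = c x) ∧ ∀ x ∈ Λ', (DU_Phi F (σ₁, σ₂)).1 x = c' x) :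
    (DU_B F N σ₁' σ₂' ∧ ∀ x ∈ Λ, σ₁' x = c x) ∧ ∀ x ∈ Λ', (DU_Phi F (σ₁', σ₂')).1 x = c' x := by
  have a₁ : ∀ x ∈ box N, σ₁ x = σ₁' x := fun x hx => h₁ x (mem_union_left _ hx)
  have a₂ : ∀ x ∈ box N, σ₂ x = σ₂' x := fun x hx => h₂ x (mem_union_left _ hx)
  have b := DU_B_congr a₁ a₂ h.1.1
  have e : DU_K F σ₁' σ₂' = DU_K F σ₁ σ₂ := (DM_K_congr (fun x hx => (a₁ x hx).symm)
    (fun x hx => (a₂ x hx).symm) b).antisymm (DM_K_congr a₁ a₂ h.1.1)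
  refine ⟨⟨b, fun x hx => (a₁ x (h.1.1 x (hF hx) x Relation.ReflTransGen.refl)).symm.trans
    (h.1.2 x hx)⟩, fun x hx => Eq.trans ?_ (h.2 x hx)⟩
  simp only [DU_Phi, swp, e, h₁ x (mem_union_right _ hx), h₂ x (mem_union_right _ hx)]

lemma DM_two {Λ F Λ' : Finset V} (hF : Λ ⊆ F) {N : ℕ} {c c' σ₁ σ₂ σ₁' σ₂' : V → V}
    (h₁ : ∀ x ∈ box N ∪ Λ', σ₁ x = σ₁' x) (h₂ : ∀ x ∈ box N ∪ Λ', σ₂ x = σ₂' x)
    (h : (DU_B F N σ₁ σ₂ ∧ ∀ x ∈ Λ, σ₂ x = c x) ∧ ∀ x ∈ Λ', σ₁ x = c' x) :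
    (DU_B F N σ₁' σ₂' ∧ ∀ x ∈ Λ, σ₂' x = c x) ∧ ∀ x ∈ Λ', σ₁' x = c' x := by
  have a₁ : ∀ x ∈ box N, σ₁ x = σ₁' x := fun x hx => h₁ x (mem_union_left _ hx)
  have a₂ : ∀ x ∈ box N, σ₂ x = σ₂' x := fun x hx => h₂ x (mem_union_left _ hx)
  exact ⟨⟨DU_B_congr a₁ a₂ h.1.1, fun x hx =>
    (a₂ x (h.1.1 x (hF hx) x Relation.ReflTransGen.refl)).symm.trans (h.1.2 x hx)⟩,
    fun x hx => (h₁ x (mem_union_right _ hx)).symm.trans (h.2 x hx)⟩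

lemma DM_fin {ν₁ ν₂ : Measure Dimer} (h₁ : IsErgodicGibbs ν₁) (h₂ : IsErgodicGibbs ν₂)
    {Λ F : Finset V} (hF : Λ ⊆ F) (N : ℕ) (c : V → V) (Λ' : Finset V) (c' : V → V) :
    (ν₁.prod ν₂) (DM_psi F ⁻¹' DU_cyl Λ' c' ∩ (DU_S F N ∩ Prod.fst ⁻¹' DU_cyl Λ c)) =
      (ν₁.prod ν₂) (Prod.fst ⁻¹' DU_cyl Λ' c' ∩ (DU_S F N ∩ Prod.snd ⁻¹' DU_cyl Λ c)) := by
  have := h₁.prob
  have := h₂.prob
  have m1 := (DM_psi_meas F (DU_cyl_meas Λ' c')).inter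
    ((DU_S_meas F N).inter (measurable_fst (DU_cyl_meas Λ c)))
  have m2 := (measurable_fst (DU_cyl_meas Λ' c')).inter
    ((DU_S_meas F N).inter (measurable_snd (DU_cyl_meas Λ c)))
  rw [← measureReal_eq_measureReal_iff (measure_ne_top _ _) (measure_ne_top _ _),
    ← integral_indicator_one m1, ← integral_indicator_one m2]
  have e1 := dlr2 h₁ h₂ (box N ∪ Λ') (g := fun ρ₁ ρ₂ : V → V =>
      if (DU_B F N ρ₁ ρ₂ ∧ ∀ x ∈ Λ, ρ₁ x = c x) ∧ ∀ x ∈ Λ', (DU_Phi F (ρ₁, ρ₂)).1 x = c' x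
        then (1 : ℝ) else 0) fun _ _ _ _ _ _ _ _ a b => if_congr ⟨DM_one hF a b,
          DM_one hF (fun x hx => (a x hx).symm) fun x hx => (b x hx).symm⟩ rfl rfl
  have e2 := dlr2 h₁ h₂ (box N ∪ Λ') (g := fun ρ₁ ρ₂ : V → V =>
      if (DU_B F N ρ₁ ρ₂ ∧ ∀ x ∈ Λ, ρ₂ x = c x) ∧ ∀ x ∈ Λ', ρ₁ x = c' x then (1 : ℝ) else 0)
        fun _ _ _ _ _ _ _ _ a b => if_congr ⟨DM_two hF a b,
          DM_two hF (fun x hx => (a x hx).symm) fun x hx => (b x hx).symm⟩ rfl rfl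
  simp only [DM_sum hF (subset_union_left (s₁ := box N) (s₂ := Λ'))] at e1
  refine Eq.trans ?_ ((e1.trans e2.symm).trans ?_)
  · exact integral_congr_ae (Eventually.of_forall fun p => by
      simp only [Set.indicator_apply, Pi.one_apply]
      exact if_congr and_comm rfl rfl)
  · exact integral_congr_ae (Eventually.of_forall fun p => by
      simp only [Set.indicator_apply, Pi.one_apply]
      exact if_congr and_comm rfl rfl)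

lemma DM_ext {μ₁ μ₂ : Measure Dimer} [IsFiniteMeasure μ₁] [IsFiniteMeasure μ₂]
    (h : ∀ Λ c, μ₁ (DU_cyl Λ c) = μ₂ (DU_cyl Λ c)) : μ₁ = μ₂ := by
  have hu : μ₁ Set.univ = μ₂ Set.univ := by simpa [DU_cyl] using h ∅ id
  by_cases h0 : μ₁ = 0
  · rw [h0] at hu ⊢
    exact (Measure.measure_univ_eq_zero.1 hu.symm).symm
  have n1 : NeZero μ₁ := ⟨h0⟩
  have n2 : NeZero μ₂ := ⟨fun k => h0 (Measure.measure_univ_eq_zero.1 (by rw [hu, k]; rfl))⟩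
  have e := DU_ext (ν₁ := (μ₁ Set.univ)⁻¹ • μ₁) (ν₂ := (μ₂ Set.univ)⁻¹ • μ₂) fun Λ c => by
    rw [Measure.smul_apply, Measure.smul_apply, hu, h]
  ext S _
  have k := congrArg (fun m : Measure Dimer => m S) e
  simp only [Measure.smul_apply, smul_eq_mul, hu] at k
  exact (ENNReal.mul_right_inj (ENNReal.inv_ne_zero.2 (measure_ne_top _ _))
    (ENNReal.inv_ne_top.2 (Measure.measure_univ_ne_zero.2 n2.out))).1 k

lemma DM_map {μ : Measure (Dimer × Dimer)} [IsFiniteMeasure μ] {f g : Dimer × Dimer → Dimer}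
    (hf : Measurable f) (hg : Measurable g) {S T : Set (Dimer × Dimer)}
    (h : ∀ Λ c, μ (f ⁻¹' DU_cyl Λ c ∩ S) = μ (g ⁻¹' DU_cyl Λ c ∩ T)) {E : Set Dimer}
    (mE : MeasurableSet E) : μ (f ⁻¹' E ∩ S) = μ (g ⁻¹' E ∩ T) := by
  have e := DM_ext (μ₁ := (μ.restrict S).map f) (μ₂ := (μ.restrict T).map g) fun Λ c => by
    rw [Measure.map_apply hf (DU_cyl_meas Λ c), Measure.map_apply hg (DU_cyl_meas Λ c),
      Measure.restrict_apply (hf (DU_cyl_meas Λ c)), Measure.restrict_apply (hg (DU_cyl_meas Λ c)),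
      h]
  rw [← Measure.restrict_apply (hf mE), ← Measure.restrict_apply (hg mE),
    ← Measure.map_apply hf mE, ← Measure.map_apply hg mE, e]

/-- Without infinite paths the two samples agree on tail events. -/
lemma DM_agree {ν₁ ν₂ : Measure Dimer} (h₁ : IsErgodicGibbs ν₁) (h₂ : IsErgodicGibbs ν₂)
    {E : Set Dimer} (mE : MeasurableSet E) (tE : DM_tail E) :
    (ν₁.prod ν₂) (Prod.snd ⁻¹' Eᶜ ∩ ((Ik 1)ᶜ ∩ Prod.fst ⁻¹' E)) = 0 := by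
  have := h₁.prob
  have := h₂.prob
  have k := DM_map (μ := ν₁.prod ν₂) measurable_fst measurable_snd
    (S := (Ik 1)ᶜ ∩ Prod.fst ⁻¹' E) (T := (Ik 1)ᶜ ∩ Prod.fst ⁻¹' E) (fun Λ c => ?_) mE.compl
  · rw [← k, show (Prod.fst ⁻¹' Eᶜ ∩ ((Ik 1)ᶜ ∩ Prod.fst ⁻¹' E) : Set (Dimer × Dimer)) = ∅ from
      Set.eq_empty_of_forall_notMem fun p hp => hp.1 hp.2.2, measure_empty]
  have mC := DU_cyl_meas Λ c
  rw [Set.inter_left_comm, Set.inter_left_comm (Prod.snd ⁻¹' DU_cyl Λ c)]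
  refine DU_lim Λ ((measurable_fst mC).inter (measurable_fst mE))
    ((measurable_snd mC).inter (measurable_fst mE)) fun L N => ?_
  have a := DM_map (μ := ν₁.prod ν₂) (DM_psi_meas (Λ ∪ box L)) measurable_fst
    (DM_fin h₁ h₂ subset_union_left N c) mE
  have fin : ∀ p ∈ DU_S (Λ ∪ box L) N, {x | p.1.1 x ≠ (DM_psi (Λ ∪ box L) p).1 x}.Finite :=
    fun p hp => (box N).finite_toSet.subset fun x hx => by
      by_contra hn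
      exact hx (if_neg fun ⟨z, hz, hc⟩ => hn (hp z hz x hc)).symm
  refine Eq.trans (congrArg _ (Set.ext fun p => ?_)) (a.trans (congrArg _ (Set.ext fun p => ?_)))
  · exact ⟨fun h => ⟨tE _ _ (fin p h.1) h.2.2, h.1, h.2.1⟩, fun h => ⟨h.2.1, h.2.2,
      tE _ _ ((fin p h.2.1).subset fun x hx => Ne.symm hx) h.1⟩⟩
  · exact ⟨fun h => ⟨h.2.1, h.2.2, h.1⟩, fun h => ⟨h.2.2, h.1, h.2.1⟩⟩

lemma DM_const {ν₁ ν₂ : Measure Dimer} (h₁ : IsErgodicGibbs ν₁) (h₂ : IsErgodicGibbs ν₂) :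
    ∀ᵐ σ ∂ν₂, ν₁ ((fun τ : Dimer => (τ, σ)) ⁻¹' (Ik 1)ᶜ) = (ν₁.prod ν₂) (Ik 1)ᶜ := by
  have := h₁.prob
  have := h₂.prob
  have mA := (measurableSet_Ik 1).compl
  have hm : Measurable fun σ : Dimer => ν₁ ((fun τ : Dimer => (τ, σ)) ⁻¹' (Ik 1)ᶜ) :=
    measurable_measure_prodMk_right mA
  have hi : ∀ v, IsEven v → ∀ σ, ν₁ ((fun τ : Dimer => (τ, shift v σ)) ⁻¹' (Ik 1)ᶜ) =
      ν₁ ((fun τ : Dimer => (τ, σ)) ⁻¹' (Ik 1)ᶜ) := by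
    intro v hv σ
    rw [← (h₁.invariant v hv).measure_preimage (measurable_prodMk_right mA).nullMeasurableSet]
    refine congrArg ν₁ (Set.ext fun τ => ?_)
    exact not_congr (Set.ext_iff.1 (Ik_shift 1 v) (τ, σ))
  obtain ⟨κ, hκ⟩ : ∃ κ, (fun σ : Dimer => ν₁ ((fun τ : Dimer => (τ, σ)) ⁻¹' (Ik 1)ᶜ)) =ᵐ[ν₂]
      Function.const _ κ := by
    refine exists_eventuallyEq_const_of_forall_separating MeasurableSet fun S hS => ?_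
    have hS' := hm hS
    refine (h₂.ergodic _ hS' fun v hv => ?_).symm.imp (mem_ae_iff_prob_eq_one hS').2
      measure_eq_zero_iff_ae_notMem.1
    refine Eventually.of_forall fun τ => ?_
    exact congrArg (· ∈ S) (hi v hv τ)
  have e1 : (ν₁.prod ν₂) (Ik 1)ᶜ = κ := by
    rw [Measure.prod_apply_symm mA, lintegral_congr_ae hκ]
    simp
  rw [e1]
  exact hκ

theorem mass_noPath {ν : Measure Dimer} (h : IsErgodicGibbs ν) (h0 : (ν.prod ν) (Ik 1)ᶜ ≠ 0) :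
    ∃ k : ℕ, (k : ENNReal) * (ν.prod ν) (Ik 1)ᶜ = 1 := by
  have := h.prob
  have mA := (measurableSet_Ik 1).compl
  by_contra hn
  have key : ∀ k : ℕ, ∃ U : Set Dimer, MeasurableSet U ∧ DM_tail U ∧
      ν U = (k : ENNReal) * (ν.prod ν) (Ik 1)ᶜ := by
    intro k
    induction k with
    | zero => exact ⟨∅, MeasurableSet.empty, fun _ _ _ h => h, by simp⟩
    | succ k ih =>
      obtain ⟨U, mU, tU, eU⟩ := ih
      have a := DM_agree h h mU tU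
      have mS : MeasurableSet (Prod.snd ⁻¹' Uᶜ ∩ ((Ik 1)ᶜ ∩ Prod.fst ⁻¹' U) : Set (Dimer × Dimer)) :=
        (measurable_snd mU.compl).inter (mA.inter (measurable_fst mU))
      rw [Measure.prod_apply_symm mS,
        lintegral_eq_zero_iff (measurable_measure_prodMk_right mS)] at a
      have b : ∃ᶠ σ in ae ν, σ ∉ U := fun k' => hn ⟨k, eU.symm.trans
        ((mem_ae_iff_prob_eq_one mU).1 (k'.mono fun σ hσ => not_not.1 hσ))⟩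
      obtain ⟨σ, s1, s2, s3⟩ := (b.and_eventually (a.and (DM_const h h))).exists
      have mσ : MeasurableSet ((fun τ : Dimer => (τ, σ)) ⁻¹' (Ik 1)ᶜ) := measurable_prodMk_right mA
      refine ⟨U ∪ (fun τ : Dimer => (τ, σ)) ⁻¹' (Ik 1)ᶜ, mU.union mσ,
        fun τ τ' hf hτ => hτ.imp (tU τ τ' hf) (DM_sec σ τ τ' hf), ?_⟩
      have dj : AEDisjoint ν U ((fun τ : Dimer => (τ, σ)) ⁻¹' (Ik 1)ᶜ) := by
        refine measure_mono_null (fun τ hτ => ?_) s2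
        exact ⟨s1, hτ.2, hτ.1⟩
      rw [measure_union₀ mσ.nullMeasurableSet dj, eU, s3, Nat.cast_succ, add_mul, one_mul]
  obtain ⟨k, hk⟩ := ENNReal.exists_nat_mul_gt h0 ENNReal.one_ne_top
  obtain ⟨U, -, -, eU⟩ := key k
  exact absurd (eU ▸ prob_le_one) (not_le.2 hk)

end Pool.Agent.Work.MP_5cb0a4_pr.Z
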