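import Pool.Agent.Work.MP_5cb0a4_pr.N.MainN

open MeasureTheory Finset Filter Topology
open scoped Classical

namespace Pool.Agent.Work.MP_5cb0a4_pr.Z

/-- A box is connected: a set that contains one point of it and misses another has a boundary
edge inside the box. -/
theorem DPos_conn {r : ℕ} (S : Finset V) {x : V} (hx : x ∈ box r) (hxS : x ∉ S) (n : ℕ) :
    ∀ z ∈ S, z ∈ box r → ∑ i, (x i - z i).natAbs ≤ n →
      ∃ z ∈ S, ∃ d : Dir, z ∈ box r ∧ z + dv d ∈ box r ∧ z + dv d ∉ S := by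
  induction n with
  | zero =>
    intro z hz _ h
    have e : z = x := funext fun i => by
      have := single_le_sum (f := fun i => (x i - z i).natAbs) (fun _ _ => Nat.zero_le _)
        (mem_univ i)
      omega
    exact absurd (e ▸ hz) hxS
  | succ n ih =>
    intro z hz hb h
    obtain ⟨i, hi⟩ : ∃ i, z i ≠ x i := by
      by_contra c
      have e : z = x := funext fun i => not_not.1 fun h => c ⟨i, h⟩
      exact hxS (e ▸ hz)
    have k0 : ∀ j, (z + dv (i, decide (z i < x i))) j =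
        if j = i then (if z i < x i then z i + 1 else z i - 1) else z j := fun j => by
      simp only [Pi.add_apply, dv, Pi.single_apply, decide_eq_true_eq]
      split_ifs with p q
      · rw [p]
      · rw [p]; ring
      · ring
    have k1 : z + dv (i, decide (z i < x i)) ∈ box r := mem_box.2 fun j => by
      have a1 := mem_box.1 hx i
      have a2 := mem_box.1 hb i
      have a3 := mem_box.1 hb j
      rw [k0]
      split_ifs <;> omega
    by_cases c : z + dv (i, decide (z i < x i)) ∈ S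
    · refine ih _ c k1 ?_
      have : ∑ j, (x j - (z + dv (i, decide (z i < x i))) j).natAbs <
          ∑ j, (x j - z j).natAbs := by
        refine sum_lt_sum (fun j _ => ?_) ⟨i, mem_univ _, ?_⟩
        · rw [k0]
          split_ifs with p q
          · subst p; omega
          · subst p; omega
          · exact le_rfl
        · rw [k0, if_pos rfl]
          split_ifs <;> omega
      omega
    · exact ⟨z, hz, _, hb, k1, c⟩

/-- The flux out of a set closed under the dimers whose inner boundary is odd. -/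
theorem DPos_cut {s : Fin 3 → ℝ} {κ : ℝ} (hκ : 0 < κ) (hs : n1 s ≤ 1 - κ) (τ : Dimer)
    {r u b : ℕ} (hu : 1 ≤ u) (hb : u + r ≤ b) {S : Finset V}
    (hodd : ∀ z ∈ S, ∀ d, z + dv d ∈ box b → z + dv d ∉ S → ¬ IsEven z)
    (hcl : ∀ z ∈ S, τ.1 z ∈ box b → τ.1 z ∈ S) {x y : V} (hx : x ∈ box r) (hy : y ∈ box r)
    (hxS : x ∉ S) (hyS : y ∈ S) :
    ∑ j ∈ Finset.Ico 1 u, (beta S (j + r) : ℝ) < 6 / κ * |Outp s τ.1 S (u + r)| := by
  have hpe : ∀ x d, κ / 6 ≤ pe s x d := fun x d => by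
    unfold pe; split_ifs <;> exact pS_ge hs _
  obtain ⟨z₀, z1, d₀, z2⟩ := DPos_conn S hx hxS _ y hyS hy le_rfl
  have h0 := div_thmP (isExt_dimer τ) s (S ∩ box (u + r))
  rw [sum_eq_zero (s := mon _ _) fun z hz => absurd (mem_mon.1 hz).2 (NPosi_ne τ z), neg_zero,
    ← sum_ite_mem] at h0
  have h1 : (1 : ℝ) ≤ ∑ z ∈ S, ∑ d : Dir,
      if z ∈ box r ∧ z + dv d ∈ box r ∧ z + dv d ∉ S then (1 : ℝ) else 0 := by
    have a : ∀ z d, (0 : ℝ) ≤ if z ∈ box r ∧ z + dv d ∈ box r ∧ z + dv d ∉ S then (1 : ℝ) else 0 :=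
      fun z d => by split_ifs <;> norm_num
    exact ((if_pos z2).ge.trans (single_le_sum (fun d _ => a z₀ d) (mem_univ d₀))).trans
      (single_le_sum (f := fun z => ∑ d : Dir,
        if z ∈ box r ∧ z + dv d ∈ box r ∧ z + dv d ∉ S then (1 : ℝ) else 0)
        (fun z _ => sum_nonneg fun d _ => a z d) z1)
  have h2 : κ / 6 * (∑ j ∈ Finset.Ico 1 u, (beta S (j + r) : ℝ) + ∑ z ∈ S, ∑ d : Dir,
      if z ∈ box r ∧ z + dv d ∈ box r ∧ z + dv d ∉ S then (1 : ℝ) else 0) +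
      Outp s τ.1 S (u + r) ≤ 0 := by
    refine le_of_le_of_eq ?_ h0
    rw [NHallP_Out s τ.1 S (by omega)]
    simp only [Hall_beta]
    rw [sum_comm (s := Finset.Ico 1 u), ← sum_add_distrib, mul_sum, ← sum_add_distrib]
    refine sum_le_sum fun z hz => ?_
    rw [sum_comm (s := Finset.Ico 1 u), ← sum_add_distrib, mul_sum, ← sum_add_distrib]
    have e : (if z ∈ box (u + r) then ∑ d : Dir,
        (if z + dv d ∈ S ∩ box (u + r) then 0 else flp s τ.1 z d) else 0) =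
        ∑ d : Dir, if z ∈ box (u + r) then
          (if z + dv d ∈ S ∩ box (u + r) then 0 else flp s τ.1 z d) else 0 := by
      split_ifs
      · rfl
      · exact (sum_eq_zero fun _ _ => rfl).symm
    rw [e]
    refine sum_le_sum fun d _ => ?_
    have k1 : ∑ j ∈ Finset.Ico 1 u, (if z ∈ lev (j + r) ∧ z + dv d ∈ lev (j + r) ∧ z + dv d ∉ S
        then (1 : ℝ) else 0) + (if z ∈ box r ∧ z + dv d ∈ box r ∧ z + dv d ∉ S then (1 : ℝ) else 0)
        ≤ if z ∈ box (u + r) ∧ z + dv d ∈ box (u + r) ∧ z + dv d ∉ S then 1 else 0 := by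
      by_cases h : ∃ j ∈ Finset.Ico 1 u,
          z ∈ lev (j + r) ∧ z + dv d ∈ lev (j + r) ∧ z + dv d ∉ S
      · obtain ⟨j, hj, p1, p2, p3⟩ := h
        have q := mem_Ico.1 hj
        have r1 := mem_lev.1 p1
        have r2 := mem_lev.1 p2
        rw [sum_eq_single j (fun j' _ hne => if_neg fun h => hne (by
            have := Hall_lev h.1 p1
            omega)) (fun h => absurd hj h), if_pos ⟨p1, p2, p3⟩,
          if_neg fun h => r1.2 (box_mono (by omega) h.1),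
          if_pos ⟨box_mono (by omega) r1.1, box_mono (by omega) r2.1, p3⟩, add_zero]
      · rw [sum_eq_zero fun j hj => if_neg fun h' => h ⟨j, hj, h'⟩, zero_add]
        split_ifs with p q
        · exact le_rfl
        · exact absurd ⟨box_mono (by omega) p.1, box_mono (by omega) p.2.1, p.2.2⟩ q
        · exact zero_le_one
        · exact le_rfl
    have k2 := mul_le_mul_of_nonneg_left k1 (show 0 ≤ κ / 6 by positivity)
    refine (add_le_add_left k2 _).trans ?_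
    by_cases p1 : z ∈ box (u + r)
    · by_cases p2 : z + dv d ∈ box (u + r)
      · by_cases p3 : z + dv d ∈ S
        · simp [p1, p2, p3]
        · have q1 := hodd z hz d (box_mono hb p2) p3
          have q2 : τ.1 z ≠ z + dv d := fun e =>
            p3 (e ▸ hcl z hz (e ▸ box_mono hb p2))
          have q3 := hpe z d
          simp only [p1, p2, p3, mem_inter, flp, sg, if_neg q1, if_neg q2, not_true_eq_false,
            not_false_eq_true, and_self, and_false, false_and, if_true, if_false]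
          linarith only [q3]
      · simp [p1, p2]
    · simp [p1]
  have h3 := neg_le_abs (Outp s τ.1 S (u + r))
  have h4 := mul_le_mul_of_nonneg_left h1 (show 0 ≤ κ / 6 by positivity)
  rw [div_mul_eq_mul_div, lt_div_iff₀ hκ]
  linarith only [h2, h3, h4, hκ]

/-- Refilling a box with two prescribed monomers. -/
theorem DPos_fill {s : Fin 3 → ℝ} {κ : ℝ} (hκ : 0 < κ) (hs : n1 s ≤ 1 - κ) (τ : Dimer)
    {r b : ℕ} (hb : r + 1 ≤ b) {x y : V} (ex : IsEven x) (ey : ¬ IsEven y) (hx : x ∈ box r)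
    (hy : y ∈ box r)
    (hS : ∀ S : Finset V, ∃ u, 1 ≤ u ∧ u + r ≤ b ∧
      6 / κ * |Outp s τ.1 S (u + r)| ≤ ∑ j ∈ Finset.Ico 1 u, (beta S (j + r) : ℝ)) :
    0 < Zm (box b) τ.1 {x, y} := by
  have fr : ∀ z ∈ box r, z ∈ free (box b) τ.1 := fun z hz =>
    mem_free.2 ⟨box_mono (by omega) hz, box_mono hb (Hall_nbr (τ.2 z).1 hz)⟩
  have ft : ∀ z ∈ free (box b) τ.1, τ.1 z ∈ free (box b) τ.1 := fun z hz =>
    mem_free.2 ⟨(mem_free.1 hz).2, by rw [(τ.2 z).2]; exact (mem_free.1 hz).1⟩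
  have inj := (isExt_dimer τ).inj
  obtain ⟨W, hW⟩ : ∃ W : Finset V, ∀ z, z ∈ W ↔ z ∈ free (box b) τ.1 ∧ z ≠ x ∧ z ≠ y :=
    ⟨(free (box b) τ.1).filter fun z => z ≠ x ∧ z ≠ y, fun _ => mem_filter⟩
  obtain ⟨m, hm⟩ := Hall_match W (fun A hA => by
    by_contra hc
    have hA1 : ∀ z ∈ A, z ∈ W ∧ IsEven z := fun z hz => mem_filter.1 (hA hz)
    have hA2 : ∀ z ∈ Hall_nb A, ¬ IsEven z := fun z hz => by
      obtain ⟨a, ha, d, rfl⟩ := Hall_mem_nb.1 hz
      exact fun h => isEven_add_dv.1 h (hA1 a ha).2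
    have hA3 : ∀ a ∈ A, τ.1 a ∈ Hall_nb A := fun a ha => by
      obtain ⟨d, hd⟩ := nbr_iff.1 (τ.2 a).1
      exact Hall_mem_nb.2 ⟨a, ha, d, hd.symm⟩
    have s1 : A.image τ.1 ⊆ Hall_nb A ∩ free (box b) τ.1 := fun z hz => by
      obtain ⟨a, ha, rfl⟩ := mem_image.1 hz
      exact mem_inter.2 ⟨hA3 a ha, ft a ((hW a).1 (hA1 a ha).1).1⟩
    have s2 : ∀ z ∈ Hall_nb A ∩ free (box b) τ.1, z ≠ y → z ∈ Hall_nb A ∩ W := fun z hz h =>
      mem_inter.2 ⟨(mem_inter.1 hz).1, (hW z).2 ⟨(mem_inter.1 hz).2,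
        fun e => hA2 z (mem_inter.1 hz).1 (e ▸ ex), h⟩⟩
    have c1 : (A.image τ.1).card = A.card := card_image_of_injective _ inj
    have s3 : y ∈ Hall_nb A := by
      by_contra h
      have := card_le_card (s1.trans fun z hz => s2 z hz fun e => h (e ▸ (mem_inter.1 hz).1))
      omega
    have s4 : A.image τ.1 = Hall_nb A ∩ free (box b) τ.1 := by
      refine eq_of_subset_of_card_le s1 ?_
      have a1 : Hall_nb A ∩ free (box b) τ.1 ⊆ insert y (Hall_nb A ∩ W) := fun z hz =>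
        mem_insert.2 (or_iff_not_imp_left.2 (s2 z hz))
      have a2 := (card_le_card a1).trans (card_insert_le _ _)
      omega
    obtain ⟨u, u1, u2, u3⟩ := hS (A ∪ Hall_nb A ∩ box b)
    refine absurd u3 (not_le.2 (DPos_cut hκ hs τ u1 u2 (fun z hz d h1 h2 h3 => ?_)
      (fun z hz h1 => ?_) hx hy (fun h => ?_)
      (mem_union_right _ (mem_inter.2 ⟨s3, box_mono (by omega) hy⟩))))
    · exact (mem_union.1 hz).elim
        (fun h => h2 (mem_union_right _ (mem_inter.2 ⟨Hall_mem_nb.2 ⟨z, h, d, rfl⟩, h1⟩)))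
        fun h => hA2 z (mem_inter.1 h).1 h3
    · rcases mem_union.1 hz with h | h
      · exact mem_union_right _ (mem_inter.2 ⟨hA3 z h, h1⟩)
      · have : z ∈ A.image τ.1 :=
          s4 ▸ mem_inter.2 ⟨(mem_inter.1 h).1, mem_free.2 ⟨(mem_inter.1 h).2, h1⟩⟩
        obtain ⟨a, ha, rfl⟩ := mem_image.1 this
        rw [(τ.2 a).2]
        exact mem_union_left _ ha
    · exact (mem_union.1 h).elim (fun h => ((hW x).1 (hA1 x h).1).2.1 rfl)
        fun h => hA2 x (mem_inter.1 h).1 ex) (by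
    have e1 : W.filter IsEven = ((free (box b) τ.1).filter IsEven).erase x := by
      ext z
      simp only [mem_filter, mem_erase, hW]
      exact ⟨fun h => ⟨h.1.2.1, h.1.1, h.2⟩, fun h => ⟨⟨h.2.1, h.1, fun e => ey (e ▸ h.2.2)⟩, h.2.2⟩⟩
    have e2 : (W.filter fun z => ¬ IsEven z) =
        ((free (box b) τ.1).filter fun z => ¬ IsEven z).erase y := by
      ext z
      simp only [mem_filter, mem_erase, hW]
      exact ⟨fun h => ⟨h.1.2.2, h.1.1, h.2⟩, fun h => ⟨⟨h.2.1, fun e => h.2.2 (e ▸ ex), h.1⟩, h.2.2⟩⟩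
    have e3 : ((free (box b) τ.1).filter fun z => ¬ IsEven z).card ≤
        ((free (box b) τ.1).filter IsEven).card :=
      card_le_card_of_injOn τ.1 (fun z hz => by
        have h := mem_filter.1 (mem_coe.1 hz)
        exact mem_coe.2 (mem_filter.2 ⟨ft z h.1, (nbr_parity (τ.2 z).1).2 h.2⟩)) inj.injOn
    rw [e1, e2, card_erase_of_mem (mem_filter.2 ⟨fr x hx, ex⟩),
      card_erase_of_mem (mem_filter.2 ⟨fr y hy, ey⟩)]
    omega)
  let ρ : V → V := fun z => if z ∈ W then m z else if z = x ∨ z = y then z else τ.1 z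
  have r1 : ∀ z ∈ W, ρ z = m z := fun z hz => if_pos hz
  have r2 : ∀ z, z = x ∨ z = y → ρ z = z := fun z hz =>
    (if_neg fun h => hz.elim ((hW z).1 h).2.1 ((hW z).1 h).2.2).trans (if_pos hz)
  have r3 : ∀ z ∉ free (box b) τ.1, ρ z = τ.1 z := fun z hz =>
    (if_neg fun h => hz ((hW z).1 h).1).trans
      (if_neg fun h => hz (h.elim (fun e => e ▸ fr x hx) fun e => e ▸ fr y hy))
  have tri : ∀ z, z ∈ W ∨ (z = x ∨ z = y) ∨ z ∉ free (box b) τ.1 := fun z => by
    rw [hW]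
    tauto
  refine card_pos.2 ⟨ρ, mem_filter.2 ⟨mem_cls.2 ⟨fun z => ?_,
    fun z hz => r3 z fun h => hz (mem_free.1 h).1⟩, ?_⟩⟩
  · rcases tri z with h | h | h
    · rw [r1 z h, r1 _ (hm z h).1]
      exact ⟨Or.inr (hm z h).2.1, (hm z h).2.2⟩
    · rw [r2 z h, r2 z h]
      exact ⟨Or.inl rfl, rfl⟩
    · rw [r3 z h, r3 _ fun c => h (by simpa only [(τ.2 z).2] using ft _ c)]
      exact ⟨Or.inr (τ.2 z).1, (τ.2 z).2⟩
  · ext z
    rw [mem_mon, mem_insert, mem_singleton]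
    refine ⟨fun h => ?_, fun h => ⟨h.elim (fun e => e ▸ box_mono (by omega) hx)
      fun e => e ▸ box_mono (by omega) hy, r2 z h⟩⟩
    rcases tri z with p | p | p
    · exact absurd ((r1 z p).symm.trans h.2) (Hall_ne (hm z p).2.1)
    · exact p
    · exact absurd ((r3 z p).symm.trans h.2) (NPosi_ne τ z)

theorem posAll {ν : Measure Dimer} (h : IM ν) {s : Fin 3 → ℝ} (hF : FluxAt ν s) (hs : n1 s < 1) :
    ∀ x y, IsEven x → ¬ IsEven y → ∃ N, 0 < ∫ τ, M2 (box N) τ.1 x y ∂ν := by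
  intro x y ex ey
  have := h.prob
  obtain ⟨κ, hκe⟩ : ∃ κ : ℝ, κ = 1 - n1 s := ⟨_, rfl⟩
  have hκ : 0 < κ := by linarith only [hκe, hs]
  have hs' : n1 s ≤ 1 - κ := by linarith only [hκe]
  obtain ⟨A, hAe⟩ : ∃ A : ℝ, A = 6 / κ := ⟨_, rfl⟩
  have hA : 1 ≤ A := by
    rw [hAe, le_div_iff₀ hκ]
    linarith only [hs', n1_nonneg s]
  obtain ⟨δ, hδ⟩ : ∃ δ : ℝ, δ = 1 / (10368 * A ^ 2 * ((2 : ℕ) : ℝ) ^ 2) := ⟨_, rfl⟩
  have δ0 : 0 < δ := by rw [hδ]; positivity
  obtain ⟨c, hce⟩ : ∃ c : ℝ, c = δ ^ 2 / (432 * ((2 : ℕ) : ℝ)) := ⟨_, rfl⟩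
  have hc : 0 < c := by rw [hce]; positivity
  obtain ⟨r, hr⟩ := NPosi_box {x, y}
  have hx : x ∈ box r := hr (mem_insert_self _ _)
  have hy : y ∈ box r := hr (mem_insert_of_mem (mem_singleton_self _))
  obtain ⟨l₀, hl₀⟩ := hF (c / 48) (by positivity)
  obtain ⟨l, l1, l2⟩ : ∃ l : ℕ, l₀ ≤ l ∧ 1 ≤ l := ⟨l₀ + 1, by omega, by omega⟩
  obtain ⟨w₀, hw₀⟩ := exists_nat_ge ((186624 * A ^ 2 * ((2 : ℕ) : ℝ)) ^ 2 * (l : ℝ) ^ 3)
  obtain ⟨w, w1, w2, w3⟩ : ∃ w : ℕ, w₀ ≤ w ∧ 1 ≤ w ∧ r ≤ w := ⟨w₀ + r + 1, by omega, by omega, by omega⟩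
  have hW : (186624 * A ^ 2 * ((2 : ℕ) : ℝ)) ^ 2 * (l : ℝ) ^ 3 ≤ (w : ℝ) ^ 2 :=
    hw₀.trans (by exact_mod_cast w1.trans (Nat.le_self_pow two_ne_zero w))
  obtain ⟨b, hb⟩ : ∃ b : ℕ, b = 2 * w + r := ⟨_, rfl⟩
  have hpos : ∀ τ : Dimer, Psp s (w + r) b l τ.1 < c * (b : ℝ) ^ 3 * (l : ℝ) ^ 2 →
      0 < M2 (box b) τ.1 x y := fun τ hτ => by
    refine div_pos (Nat.cast_pos.2 (DPos_fill hκ hs' τ (by omega) ex ey hx hy fun S => ?_))
      (Nat.cast_pos.2 (zz_dimer_pos _ τ))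
    obtain ⟨u, hu, h3⟩ := NPatchP_core hs.le hA (k := 2) (b := b) (by omega) l2 (by omega)
      (by omega) hδ hW τ.1 S (· + r) (Finset.Ioo w (2 * w))
      (fun u hu => by
        have := mem_Icc.1 hu
        refine ⟨by omega, by omega, ?_⟩
        rw [Php_eq (isExt_dimer τ), neg_eq_zero]
        exact sum_eq_zero fun z hz => absurd (mem_mon.1 hz).2 (NPosi_ne τ z))
      Ioo_subset_Ioc_self (by rw [Nat.card_Ioo]; omega) (by
        rw [← hce]
        refine le_trans (le_of_eq ?_) hτ.le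
        unfold Psp lsum
        refine sum_bij' (fun j _ => j + r) (fun j _ => j - r) (fun j hj => ?_) (fun j hj => ?_)
          (fun j hj => ?_) (fun j hj => ?_) fun _ _ => rfl <;>
        simp only [mem_Ioo] at hj ⊢ <;> omega)
    have := mem_Icc.1 hu
    exact ⟨u, this.1, by omega, hAe ▸ h3⟩
  refine ⟨b, (integral_pos_iff_support_of_nonneg (fun τ => Mr_nonneg _ _ _)
    ((local_Mr (box b) {x, y}).integrable ν)).2 (pos_iff_ne_zero.2 fun h0 => ?_)⟩
  have b1 : 1 ≤ b := by omega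
  have hK : 0 < c * (b : ℝ) ^ 3 * (l : ℝ) ^ 2 := by positivity
  have h1 : ∀ᵐ τ ∂ν, c * (b : ℝ) ^ 3 * (l : ℝ) ^ 2 ≤ Psp s (w + r) b l τ.1 := by
    filter_upwards [measure_eq_zero_iff_ae_notMem.1 h0] with τ hτ
    exact not_lt.1 fun h => hτ (hpos τ h).ne'
  have h2 := integral_mono_ae (integrable_const _) ((local_Psp s (w + r) b l).integrable ν) h1
  have h3 := int_Psp ν (by positivity) (hl₀ l l1) (w + r) b
  rw [integral_const, probReal_univ, one_smul] at h2
  linarith only [hK, h2, h3]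

end Pool.Agent.Work.MP_5cb0a4_pr.Z
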