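import Pool.Agent.Work.MP_5cb0a4_pr.D.Den
import Pool.Agent.Work.MP_5cb0a4_pr.D.Pos
import Pool.Agent.Work.MP_5cb0a4_pr.D.Mass

/-! The dichotomy for every mean current. Paper proof: team store file
h78_5cb0a4_paper.md. -/

open MeasureTheory Finset Filter Topology
open scoped Classical

namespace Pool.Agent.Work.MP_5cb0a4_pr.Z

/-- The conclusion from a common gauge (the second half of `mainN`). -/
theorem concl_of_gauged {ν₁ ν₂ : Measure Dimer} (h₁ : IsErgodicGibbs ν₁) (h₂ : IsErgodicGibbs ν₂)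
    (p₁ : FinPos ν₁) (p₂ : FinPos ν₂) (t11 : TR ν₁ ν₁) (t22 : TR ν₂ ν₂) (lp12 : LP2 ν₁ ν₂)
    {g : Fin 3 → ℝ} (hg₁ : Gauged (Gbar ν₁) g) (hg₂ : Gauged (Gbar ν₂) g) :
    ∀ᵐ p ∂(ν₁.prod ν₂), (infinitePaths p.1 p.2).Infinite := by
  have i₁ := im_of_eg h₁
  have i₂ := im_of_eg h₂
  have := i₁.prob
  have := i₂.prob
  obtain ⟨C₁, cs₁, a₁, q₁, ha₁, ps₁, lm₁⟩ := limit2 h₁ p₁ t11 hg₁
  obtain ⟨C₂, cs₂, a₂, q₂, ha₂, ps₂, lm₂⟩ := limit2 h₂ p₂ t22 hg₂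
  obtain ⟨B₁, d₁, E₁, hd₁, bd₁, ni₁, -⟩ := nice_gauged hg₁
  obtain ⟨B₂, d₂, E₂, hd₂, bd₂, ni₂, -⟩ := nice_gauged hg₂
  refine concl i₁ i₂ lp12 fun k => ?_
  obtain ⟨c₁, hc₁, K₁, s₁⟩ := qstates C₁ cs₁ q₁ ha₁ hd₁ bd₁ ni₁ ps₁ k
  obtain ⟨c₂, hc₂, K₂, s₂⟩ := qstates C₂ cs₂ q₂ ha₂ hd₂ bd₂ ni₂ ps₂ k
  refine ⟨c₁ * c₂ / 4, by positivity, K₁ + K₂ + 1, fun U W hU hW cU cW => ?_⟩
  obtain ⟨φ₁, m₁, r₁⟩ := lm₁ id strictMono_id
  obtain ⟨φ₂, m₂, r₂⟩ := lm₂ φ₁ m₁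
  refine ⟨fun j => φ₁ (φ₂ j), m₁.comp m₂, ?_⟩
  have a1 := (Measure.quasiMeasurePreserving_fst (μ := ν₁) (ν := ν₂)).ae r₁
  have a2 := (Measure.quasiMeasurePreserving_snd (μ := ν₁) (ν := ν₂)).ae r₂
  filter_upwards [a1, a2] with p p1 p2
  by_contra hne
  have hfr : ∃ᶠ j in atTop, Main_Th k U W (φ₁ (φ₂ j)) p.1.1 p.2.1 ≤
      c₁ * c₂ / 4 * (U.card : ℝ) ^ k * (W.card : ℝ) ^ k :=
    (Filter.not_eventually.1 hne).mono fun j hj => not_lt.1 hj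
  have := frequently_iff_neBot.1 hfr
  let 𝒰 := Ultrafilter.of (atTop ⊓ 𝓟 {j | Main_Th k U W (φ₁ (φ₂ j)) p.1.1 p.2.1 ≤
      c₁ * c₂ / 4 * (U.card : ℝ) ^ k * (W.card : ℝ) ^ k})
  have hU' : (𝒰 : Filter ℕ) ≤ atTop ⊓ 𝓟 {j | Main_Th k U W (φ₁ (φ₂ j)) p.1.1 p.2.1 ≤
      c₁ * c₂ / 4 * (U.card : ℝ) ^ k * (W.card : ℝ) ^ k} := Ultrafilter.of_le _
  have hU1 : (𝒰 : Filter ℕ) ≤ atTop := hU'.trans inf_le_left
  obtain ⟨G₁, hG₁, t₁⟩ := p1 (𝒰.map φ₂) ((m₂.tendsto_atTop).mono_left hU1)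
  obtain ⟨G₂, hG₂, t₂⟩ := p2 𝒰 hU1
  have t₁' : ∀ X, Tendsto (fun j => Mr (box (φ₁ (φ₂ j))) p.1.1 X * gz g X) (𝒰 : Filter ℕ)
      (𝓝 (G₁ X)) := fun X => by
    have := t₁ X
    rw [Ultrafilter.coe_map, tendsto_map'_iff] at this
    exact this
  have ht : Tendsto (fun j => Main_Th k U W (φ₁ (φ₂ j)) p.1.1 p.2.1) (𝒰 : Filter ℕ) (𝓝
      (∑ x ∈ Fintype.piFinset fun _ : Fin k => U, ∑ y ∈ Fintype.piFinset fun _ : Fin k => W,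
        Gam G₁ x y * Gam G₂ (fun i => y i + e0) (fun i => x i + e0))) := by
    refine tendsto_finsetSum _ fun x hx => tendsto_finsetSum _ fun y hy => ?_
    refine ((Main_Gam_tendsto t₁' x y).mul (Main_Gam_tendsto t₂ _ _)).congr fun j => ?_
    exact gz_cancel g (fun i => hU _ (Fintype.mem_piFinset.1 hx i))
      (fun i => hW _ (Fintype.mem_piFinset.1 hy i)) _ _
  have hle := le_of_tendsto ht (le_principal_iff.1 (hU'.trans inf_le_right))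
  have he0 : ¬ IsEven e0 := e0_eq ▸ not_isEven_dv _
  have hlow := NMainN_sum hc₁ hc₂ hG₁.nonneg hG₂.nonneg
    (s₁ G₁ hG₁ (fun _ => U) (fun _ => W) fun _ => ⟨hU, hW, show K₁ ≤ U.card by omega,
      show K₁ ≤ W.card by omega⟩)
    (s₂ G₂ hG₂ (fun _ => tr e0 W) (fun _ => tr e0 U) fun _ => ⟨fun x hx => ?_, fun x hx => ?_,
      by rw [card_tr]; omega, by rw [card_tr]; omega⟩)
  · have u1 : (0 : ℝ) < (U.card : ℝ) ^ k := pow_pos (Nat.cast_pos.2 (by omega)) k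
    have u2 : (0 : ℝ) < (W.card : ℝ) ^ k := pow_pos (Nat.cast_pos.2 (by omega)) k
    have := mul_pos (mul_pos (mul_pos hc₁ hc₂) u1) u2
    clear * - k U W G₁ G₂ c₁ c₂ hle hlow this; nlinarith
  · have h3 := hW _ (mem_tr.1 hx)
    rw [sub_eq_add_neg, isEven_add, isEven_neg] at h3
    clear * - x h3 he0; tauto
  · have h3 := hU _ (mem_tr.1 hx)
    rw [sub_eq_add_neg, isEven_add, isEven_neg] at h3
    clear * - x h3 he0; tauto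

/-- A finite positive number of infinite paths with positive probability is absurd: it forces
infinitely many almost surely. -/
theorem concl_of_fin {ν₁ ν₂ : Measure Dimer} (h₁ : IsErgodicGibbs ν₁) (h₂ : IsErgodicGibbs ν₂)
    (heq : meanCurrent ν₁ = meanCurrent ν₂) (hn : n1 (meanCurrent ν₁) < 1) {n : ℕ}
    (h : (ν₁.prod ν₂) (Ik 1 \ Ik (n + 1)) ≠ 0) :
    ∀ᵐ p ∂(ν₁.prod ν₂), (infinitePaths p.1 p.2).Infinite := by
  have i₁ := im_of_eg h₁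
  have i₂ := im_of_eg h₂
  have f₁ := fluxAt_eg h₁
  have f₂ : FluxAt ν₂ (meanCurrent ν₁) := heq ▸ fluxAt_eg h₂
  have p₁ := finPos i₁ (lp2 i₁ i₁ hn f₁ f₁) (posAll i₁ f₁ hn)
  have p₂ := finPos i₂ (lp2 i₂ i₂ hn f₂ f₂) (posAll i₂ f₂ hn)
  have t11 := tr_of i₁ i₁ (lp2 i₁ i₁ hn f₁ f₁) p₁ p₁ hn f₁ f₁
  have t22 := tr_of i₂ i₂ (lp2 i₂ i₂ hn f₂ f₂) p₂ p₂ hn f₂ f₂
  have lp12 := lp2 i₁ i₂ hn f₁ f₂
  have t12 := tr_of i₁ i₂ lp12 p₁ p₂ hn f₁ f₂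
  have t21 := tr_of i₂ i₁ (lp2 i₂ i₁ hn f₂ f₁) p₂ p₁ hn f₂ f₁
  have low : ∀ d, (ν₁.prod ν₂) (Use n d 0) ≠ 0 ∨ (ν₂.prod ν₁) (Use n d 0) ≠ 0 →
      ∃ c : ℝ, 0 < c ∧ ∃ N₁, ∀ N ≥ N₁, c ≤ XN (Gbar ν₁) (Gbar ν₂) N d := fun d k =>
    k.elim (XN_lower i₁ i₂ p₁ p₂) fun k => by
      simpa only [XN_comm (Gbar ν₂)] using XN_lower i₂ i₁ p₂ p₁ k
  obtain ⟨d, k₁, k₂⟩ := opp_pair i₁ i₂ h
  obtain ⟨c₁, hc₁, N₁, r₁⟩ := low _ k₁
  obtain ⟨c₂, hc₂, N₂, r₂⟩ := low _ k₂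
  obtain ⟨g, hg₁, hg₂⟩ := gauged_pair (Gbar_nonneg ν₁) (Gbar_nonneg ν₂)
    (fun w hw => Gbar_pos i₁ p₁ hw) (fun w hw => Gbar_pos i₂ p₂ hw) (Gbar_dv i₁) (Gbar_dv i₂)
    (t11.psd_bar i₁ p₁) (t22.psd_bar i₂ p₂) (t12.psd_bar i₁ p₁) (fun w hw => t11.le_bar i₁ p₁ hw)
    (fun w hw => t12.le_bar i₁ p₁ hw) (fun w hw => t21.le_bar i₂ p₂ hw)
    (fun w hw => t22.le_bar i₂ p₂ hw) (d := d) (lt_min hc₁ hc₂) (N₁ := N₁ + N₂) fun N hN =>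
      ⟨(min_le_left _ _).trans (r₁ N (by omega)), (min_le_right _ _).trans (r₂ N (by omega))⟩
  exact concl_of_gauged h₁ h₂ p₁ p₂ t11 t22 lp12 hg₁ hg₂

theorem empty_of_not_Ik {p : Dimer × Dimer} (h : p ∉ Ik 1) : infinitePaths p.1 p.2 = ∅ := by
  refine Set.eq_empty_of_forall_notMem fun c hc => ?_
  obtain ⟨x, rfl⟩ := c.exists_rep
  refine h ⟨fun _ => x, fun _ => Set.Infinite.mono (fun y hy => ?_) hc,
    fun i j hij => absurd (Subsingleton.elim i j) hij⟩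
  exact (Paths_reach _ _ _ _).1 (SimpleGraph.ConnectedComponent.exact hy).symm

/-- On the boundary of the octahedron only three directions are used. -/
theorem bdry_null {ν : Measure Dimer} (h : IM ν) (hn : n1 (meanCurrent ν) = 1) (i : Fin 3) :
    ν {τ | τ.1 0 = 0 + dv (i, !decide (0 ≤ meanCurrent ν i))} = 0 := by
  have := h.prob
  let σ : Fin 3 → Bool := fun i => decide (0 ≤ meanCurrent ν i)
  have loc : ∀ j, Local {0} fun ρ : V → V => ((ρ 0 j : ℤ) : ℝ) := fun j ρ ρ' _ _ e => by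
    simp only [e 0 (mem_singleton_self _)]
  have i₁ : ∀ j, Integrable (fun τ : Dimer =>
      if σ j then ((τ.1 0 j : ℤ) : ℝ) else -((τ.1 0 j : ℤ) : ℝ)) ν := fun j => by
    split_ifs
    exacts [(loc j).integrable ν, ((loc j).integrable ν).neg]
  have e₁ : ∀ j, ∫ τ : Dimer, (if σ j then ((τ.1 0 j : ℤ) : ℝ) else -((τ.1 0 j : ℤ) : ℝ)) ∂ν =
      |meanCurrent ν j| := fun j => by
    by_cases k : 0 ≤ meanCurrent ν j
    · simp only [σ, k, decide_true, if_true, abs_of_nonneg k]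
      rfl
    · simp only [σ, k, decide_false, Bool.false_eq_true, if_false, abs_of_neg (not_le.1 k),
        integral_neg]
      rfl
  have i₂ := integrable_finsetSum univ fun j _ => i₁ j
  have pt : ∀ τ : Dimer, 0 ≤ 1 - ∑ j,
      if σ j then ((τ.1 0 j : ℤ) : ℝ) else -((τ.1 0 j : ℤ) : ℝ) := fun τ => by
    obtain ⟨⟨j, b⟩, e⟩ := nbr_iff.1 (τ.2 0).1
    rw [e]
    fin_cases j <;> cases b <;> simp [dv, Fin.sum_univ_three] <;> split_ifs <;> norm_num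
  have z := (integral_eq_zero_iff_of_nonneg (f := fun τ : Dimer => 1 - ∑ j,
      if σ j then ((τ.1 0 j : ℤ) : ℝ) else -((τ.1 0 j : ℤ) : ℝ)) pt
      ((integrable_const 1).sub i₂)).1 (by
    rw [integral_sub (integrable_const 1) i₂, integral_finsetSum _ fun j _ => i₁ j,
      sum_congr rfl fun j _ => e₁ j, integral_const, probReal_univ, one_smul]
    exact sub_eq_zero.2 hn.symm)
  refine measure_eq_zero_iff_ae_notMem.2 (z.mono fun τ k e => ?_)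
  replace e : τ.1 0 = 0 + dv (i, !σ i) := e
  simp only [e, Pi.zero_apply] at k
  generalize σ = σ at k
  cases hb : σ i <;> fin_cases i <;> simp only [Fin.zero_eta, Fin.mk_one, Fin.reduceFinMk] at hb <;>
    simp [dv, Fin.sum_univ_three, hb] at k

theorem fin_null_bdry {ν₁ ν₂ : Measure Dimer} (h₁ : IM ν₁) (h₂ : IM ν₂)
    (heq : meanCurrent ν₁ = meanCurrent ν₂) (hn : n1 (meanCurrent ν₁) = 1) (n : ℕ) :
    (ν₁.prod ν₂) (Ik 1 \ Ik (n + 1)) = 0 := by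
  have key : ∀ {ν ν' : Measure Dimer}, IM ν → IM ν' → n1 (meanCurrent ν) = 1 → ∀ i,
      (ν.prod ν') (Use n (i, !decide (0 ≤ meanCurrent ν i)) 0) = 0 := fun {ν ν'} h h' e i => by
    have := h'.prob
    refine measure_mono_null (t := {τ : Dimer | τ.1 0 = 0 +
      dv (i, !decide (0 ≤ meanCurrent ν i))} ×ˢ Set.univ) (fun p hp => ⟨hp.2, trivial⟩) ?_
    rw [Measure.prod_prod, bdry_null h e, zero_mul]
  by_contra k
  obtain ⟨⟨i, b⟩, k₁, k₂⟩ := opp_pair h₁ h₂ k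
  have a := key h₁ h₂ hn i
  have c := key h₂ h₁ (heq ▸ hn) i
  rw [← heq] at c
  cases b <;> cases hb : decide (0 ≤ meanCurrent ν₁ i) <;> rw [hb] at a c
  exacts [k₂.elim (· a) (· c), k₁.elim (· a) (· c), k₁.elim (· a) (· c), k₂.elim (· a) (· c)]

theorem mainD : ∃ s₀ : ℝ, 0 < s₀ ∧ ∀ ν₁ ν₂ : Measure Dimer, IsErgodicGibbs ν₁ →
    IsErgodicGibbs ν₂ → meanCurrent ν₁ = meanCurrent ν₂ →
    (∀ᵐ p ∂(ν₁.prod ν₂), infinitePaths p.1 p.2 = ∅ ∨ (infinitePaths p.1 p.2).Infinite) ∧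
      (ν₁ ≠ ν₂ ∨ ∑ i, |meanCurrent ν₁ i| < s₀ →
        ∀ᵐ p ∂(ν₁.prod ν₂), (infinitePaths p.1 p.2).Infinite) := by
  obtain ⟨s₀, hs₀, hm⟩ := mainN
  refine ⟨s₀, hs₀, fun ν₁ ν₂ h₁ h₂ heq => ?_⟩
  have a : ∀ᵐ p ∂(ν₁.prod ν₂), p ∈ Ik 1 → (infinitePaths p.1 p.2).Infinite := by
    by_cases k : ∀ᵐ p ∂(ν₁.prod ν₂), (infinitePaths p.1 p.2).Infinite
    · exact k.mono fun _ hp _ => hp
    have b : ∀ n, ∀ᵐ p ∂(ν₁.prod ν₂), p ∉ Ik 1 \ Ik (n + 1) := fun n =>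
      measure_eq_zero_iff_ae_notMem.1 ((n1_mean_le (im_of_eg h₁)).eq_or_lt.elim
        (fun hn => fin_null_bdry (im_of_eg h₁) (im_of_eg h₂) heq hn n)
        fun hn => by_contra fun e => k (concl_of_fin h₁ h₂ heq hn e))
    filter_upwards [ae_all_iff.2 b] with p hp h1
    refine infinite_of_Ik fun n => ?_
    cases n with
    | zero => exact ⟨Fin.elim0, fun i => i.elim0, fun i => i.elim0⟩
    | succ n => exact by_contra fun e => hp n ⟨h1, e⟩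
  refine ⟨a.mono fun p hp => (em (p ∈ Ik 1)).symm.imp empty_of_not_Ik hp,
    fun k => k.elim (fun k => ?_) (hm ν₁ ν₂ h₁ h₂ heq)⟩
  filter_upwards [a, measure_eq_zero_iff_ae_notMem.1
    (by_contra fun e => k (eq_of_noPath h₁ h₂ e))] with p hp h1 using hp (not_not.1 h1)

theorem noPath_eq : {p : Dimer × Dimer | infinitePaths p.1 p.2 = ∅} = (Ik 1)ᶜ := by
  refine Set.ext fun p => ⟨fun h ⟨x, a, _⟩ => ?_, empty_of_not_Ik⟩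
  refine Set.eq_empty_iff_forall_notMem.1 h ((unionGraph p.1 p.2).connectedComponentMk (x 0)) ?_
  exact (a 0).mono fun y hy =>
    SimpleGraph.ConnectedComponent.sound ((Paths_reach _ _ _ _).2 hy).symm

theorem mainD' : ∃ s₀ : ℝ, 0 < s₀ ∧ ∀ ν₁ ν₂ : Measure Dimer, IsErgodicGibbs ν₁ →
    IsErgodicGibbs ν₂ → meanCurrent ν₁ = meanCurrent ν₂ →
    (∀ᵐ p ∂(ν₁.prod ν₂), infinitePaths p.1 p.2 = ∅ ∨ (infinitePaths p.1 p.2).Infinite) ∧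
      (ν₁ ≠ ν₂ ∨ ∑ i, |meanCurrent ν₁ i| < s₀ →
        ∀ᵐ p ∂(ν₁.prod ν₂), (infinitePaths p.1 p.2).Infinite) ∧
      ((ν₁.prod ν₂) {p | infinitePaths p.1 p.2 = ∅} = 0 ∨
        ∃ k : ℕ, (k : ENNReal) * (ν₁.prod ν₂) {p | infinitePaths p.1 p.2 = ∅} = 1) := by
  obtain ⟨s₀, hs₀, hm⟩ := mainD
  refine ⟨s₀, hs₀, fun ν₁ ν₂ h₁ h₂ heq => ⟨(hm ν₁ ν₂ h₁ h₂ heq).1, (hm ν₁ ν₂ h₁ h₂ heq).2, ?_⟩⟩
  rw [noPath_eq]
  refine or_iff_not_imp_left.2 fun k => ?_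
  obtain rfl := eq_of_noPath h₁ h₂ k
  exact mass_noPath h₁ k

/-- The law of the number of infinite paths. -/
theorem pathLaw {ν₁ ν₂ : Measure Dimer} (h₁ : IsErgodicGibbs ν₁) (h₂ : IsErgodicGibbs ν₂)
    (h : meanCurrent ν₁ = meanCurrent ν₂) :
    (∀ᵐ p ∂(ν₁.prod ν₂), (infinitePaths p.1 p.2).Infinite) ∨
      (ν₁ = ν₂ ∧ (∃ k : ℕ, (k : ENNReal) * (ν₁.prod ν₂) {p | infinitePaths p.1 p.2 = ∅} = 1) ∧
        ∀ᵐ p ∂(ν₁.prod ν₂), infinitePaths p.1 p.2 = ∅ ∨ (infinitePaths p.1 p.2).Infinite) := by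
  obtain ⟨s₀, -, hm⟩ := mainD'
  obtain ⟨a, b, c⟩ := hm ν₁ ν₂ h₁ h₂ h
  refine or_iff_not_imp_left.2 fun k =>
    ⟨by_contra fun e => k (b (.inl e)), c.resolve_left fun e => k ?_, a⟩
  filter_upwards [a, measure_eq_zero_iff_ae_notMem.1 e] with p hp h1 using hp.resolve_left h1

end Pool.Agent.Work.MP_5cb0a4_pr.Z
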