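import Pool.Agent.Work.MP_5cb0a4_pr.N.MainN

/-! Switching: connection probabilities are bounded by products of monomer correlations. -/

open MeasureTheory Finset Filter Topology
open scoped Classical

namespace Pool.Agent.Work.MP_5cb0a4_pr.Z

/-- Remove the dimers on `Q`. -/
noncomputable def rem (Q : Finset V) (σ : V → V) : V → V := fun v => if v ∈ Q then v else σ v

theorem isExt_rem {Q : Finset V} {σ : V → V} (h : IsExt σ) (hQ : ∀ v ∈ Q, σ v ∈ Q) :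
    IsExt (rem Q σ) := fun v => by
  by_cases k : v ∈ Q
  · simp [rem, k]
  · have k' : σ v ∉ Q := fun e => k ((h v).2 ▸ hQ _ e)
    simp only [rem, if_neg k, if_neg k']
    exact h v

theorem DSw_loc {B : Finset V} {κ ρ κ' ρ' : V → V} {y : V} (h : ∀ v, Conn κ ρ y v → v ∈ B)
    (h₁ : ∀ v ∈ B, κ v = κ' v) (h₂ : ∀ v ∈ B, ρ v = ρ' v) (v : V) :
    Conn κ' ρ' y v ↔ Conn κ ρ y v := by
  constructor
  · intro k
    induction k with
    | refl => exact .refl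
    | tail _ s ih => exact ih.tail (by rwa [h₁ _ (h _ ih), h₂ _ (h _ ih)])
  · intro k
    induction k with
    | refl => exact .refl
    | tail k s ih => exact ih.tail (by rwa [← h₁ _ (h _ k), ← h₂ _ (h _ k)])

/-- After removal, `y` is joined to `x'` by a component inside the box. -/
def SwE (Q : Finset V) (y x' : V) (N : ℕ) (σ₁ σ₂ : V → V) : Prop :=
  Conn (rem Q σ₁) σ₂ y x' ∧ ∀ v, Conn (rem Q σ₁) σ₂ y v → v ∈ box N

/-- Two edges from even points. -/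
structure SwD (Q : Finset V) (x y x' y' : V) : Prop where
  mem : ∀ v, v ∈ Q ↔ v = x ∨ v = y ∨ v = x' ∨ v = y'
  ex : IsEven x
  ex' : IsEven x'
  oy : ¬ IsEven y
  oy' : ¬ IsEven y'
  ne : x ≠ x'

theorem SwD.symm {Q : Finset V} {x y x' y' : V} (h : SwD Q x y x' y') : SwD Q x' y' x y :=
  ⟨fun v => by rw [h.mem]; tauto, h.ex', h.ex, h.oy', h.oy, h.ne.symm⟩

theorem SwD.closed {Q : Finset V} {x y x' y' : V} (h : SwD Q x y x' y') {σ : V → V} (hσ : IsExt σ)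
    (a : σ x = y) (b : σ x' = y') : ∀ v ∈ Q, σ v ∈ Q := fun v hv => by
  rw [h.mem] at hv ⊢
  rcases hv with rfl | rfl | rfl | rfl
  · simp [a]
  · rw [← a, (hσ x).2]; simp
  · simp [b]
  · rw [← b, (hσ x').2]; simp

theorem SwD.sinks {Q : Finset V} {x y x' y' : V} (h : SwD Q x y x' y') {σ ρ : V → V}
    (hσ : IsExt σ) (hρ : IsExt ρ) (a : σ x = y) (b : σ x' = y') :
    ¬ Conn (rem Q σ) ρ x x' ∧ ¬ Conn (rem Q σ) ρ y y' := by
  have e := isExt_rem hσ (h.closed hσ a b)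
  have f : ∀ v ∈ Q, rem Q σ v = v := fun v hv => if_pos hv
  refine ⟨fun k => h.ne (sinks_not_conn e hρ (.inl ⟨h.ex, f _ (by simp [h.mem])⟩)
    (.inl ⟨h.ex', f _ (by simp [h.mem])⟩) k), fun k => h.ne (hσ.inj ?_)⟩
  rw [a, b]
  exact sinks_not_conn hρ e (.inr ⟨h.oy, f _ (by simp [h.mem])⟩)
    (.inr ⟨h.oy', f _ (by simp [h.mem])⟩) k.swap

theorem DSw_local {Q : Finset V} {x y x' y' : V} {N : ℕ} (a : x ∈ box N) (b : x' ∈ box N) :
    Local2 (box N) fun σ₁ σ₂ =>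
      if σ₁ x = y ∧ σ₁ x' = y' ∧ SwE Q y x' N σ₁ σ₂ then (1 : ℝ) else 0 := by
  have key : ∀ σ₁ σ₂ σ₁' σ₂' : V → V, (∀ v ∈ box N, σ₁ v = σ₁' v) → (∀ v ∈ box N, σ₂ v = σ₂' v) →
      SwE Q y x' N σ₁ σ₂ → SwE Q y x' N σ₁' σ₂' := fun σ₁ σ₂ σ₁' σ₂' h₁ h₂ k => by
    have e := DSw_loc (κ' := rem Q σ₁') (ρ' := σ₂') k.2 (fun v hv => by simp only [rem, h₁ v hv]) h₂
    exact ⟨(e _).2 k.1, fun v hv => k.2 v ((e v).1 hv)⟩
  intro σ₁ σ₂ σ₁' σ₂' _ _ _ _ h₁ h₂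
  refine if_congr ?_ rfl rfl
  rw [h₁ x a, h₁ x' b]
  exact and_congr_right fun _ => and_congr_right fun _ => ⟨key _ _ _ _ h₁ h₂,
    key _ _ _ _ (fun v hv => (h₁ v hv).symm) fun v hv => (h₂ v hv).symm⟩

theorem DSw_count {Q : Finset V} {x y x' y' : V} (h : SwD Q x y x' y') {N : ℕ} (hN : Q ⊆ box N)
    (σ₁ σ₂ : V → V) :
    gam2 (box N) (fun σ₁ σ₂ => if σ₁ x = y ∧ σ₁ x' = y' ∧ SwE Q y x' N σ₁ σ₂ then (1 : ℝ) else 0)
      σ₁ σ₂ ≤ M2 (box N) σ₁ x y' * M2 (box N) σ₂ x' y := by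
  rw [gam2, M2, M2, Mr, Mr, div_mul_div_comm]
  refine div_le_div_of_nonneg_right ?_ (by positivity)
  rw [← sum_product', sum_boole, ← Nat.cast_mul, Nat.cast_le, Zm, Zm, ← card_product]
  refine card_le_card_of_injOn (fun q => Switch_map y (rem Q q.1, q.2)) ?_ ?_
  · rintro ⟨ρ₁, ρ₂⟩ hq
    obtain ⟨hq, a, b, c, sub⟩ := mem_filter.1 (mem_coe.1 hq)
    obtain ⟨h₁, h₂⟩ := mem_product.1 hq
    obtain ⟨⟨e₁, o₁⟩, n₁⟩ := mem_perf.1 h₁
    obtain ⟨⟨e₂, o₂⟩, n₂⟩ := mem_perf.1 h₂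
    simp only at a b c sub e₁ o₁ n₁ e₂ o₂ n₂
    have e := isExt_rem e₁ (h.closed e₁ a b)
    obtain ⟨s₁, s₂⟩ := h.sinks e₁ e₂ a b
    have s₃ : ¬ Conn (rem Q ρ₁) ρ₂ y x := fun k =>
      s₁ (Relation.ReflTransGen.trans (k.symm e e₂) c)
    have k1 : ∀ v ∈ {v | Conn (rem Q ρ₁) ρ₂ y v}, rem Q ρ₁ v ∈ {v | Conn (rem Q ρ₁) ρ₂ y v} :=
      fun v hv => Relation.ReflTransGen.tail hv (Or.inl rfl)
    have k2 : ∀ v ∈ {v | Conn (rem Q ρ₁) ρ₂ y v}, ρ₂ v ∈ {v | Conn (rem Q ρ₁) ρ₂ y v} :=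
      fun v hv => Relation.ReflTransGen.tail hv (Or.inr rfl)
    have fx : ∀ v, v ∈ box N ∧ rem Q ρ₁ v = v ↔ v ∈ Q := fun v =>
      ⟨fun k => by_contra fun n => n₁ v k.1 ((if_neg n).symm.trans k.2), fun k => ⟨hN k, if_pos k⟩⟩
    refine mem_coe.2 (mem_product.2 ⟨mem_filter.2 ⟨mem_cls.2 ⟨isExt_swp e e₂ k1 k2, fun v hv => ?_⟩,
      ?_⟩, mem_filter.2 ⟨mem_cls.2 ⟨isExt_swp e₂ e k2 k1, fun v hv => ?_⟩, ?_⟩⟩)
    · exact (if_neg fun k => hv (sub v k)).trans ((if_neg fun k => hv (hN k)).trans (o₁ v hv))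
    · ext v
      rw [mem_mon, mem_insert, mem_singleton]
      by_cases hv : Conn (rem Q ρ₁) ρ₂ y v
      · rw [show (Switch_map y (rem Q ρ₁, ρ₂)).1 v = ρ₂ v from if_pos hv]
        refine ⟨fun k => absurd k.2 (n₂ v k.1), fun k => False.elim ?_⟩
        rcases k with rfl | rfl
        exacts [s₃ hv, s₂ hv]
      · rw [show (Switch_map y (rem Q ρ₁, ρ₂)).1 v = rem Q ρ₁ v from if_neg hv, fx, h.mem]
        refine ⟨fun k => ?_, fun k => by tauto⟩
        rcases k with rfl | rfl | rfl | rfl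
        exacts [.inl rfl, absurd .refl hv, absurd c hv, .inr rfl]
    · exact (if_neg fun k => hv (sub v k)).trans (o₂ v hv)
    · ext v
      rw [mem_mon, mem_insert, mem_singleton]
      by_cases hv : Conn (rem Q ρ₁) ρ₂ y v
      · rw [show (Switch_map y (rem Q ρ₁, ρ₂)).2 v = rem Q ρ₁ v from if_pos hv, fx, h.mem]
        refine ⟨fun k => ?_, fun k => by tauto⟩
        rcases k with rfl | rfl | rfl | rfl
        exacts [absurd hv s₃, .inr rfl, .inl rfl, absurd hv s₂]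
      · rw [show (Switch_map y (rem Q ρ₁, ρ₂)).2 v = ρ₂ v from if_neg hv]
        refine ⟨fun k => absurd k.2 (n₂ v k.1), fun k => False.elim ?_⟩
        rcases k with rfl | rfl
        exacts [hv c, hv .refl]
  · rintro ⟨ρ₁, ρ₂⟩ hq ⟨ρ₁', ρ₂'⟩ hq' e
    obtain ⟨hq, a, b, -⟩ := mem_filter.1 (mem_coe.1 hq)
    obtain ⟨hq', a', b', -⟩ := mem_filter.1 (mem_coe.1 hq')
    have e₁ := (mem_perf.1 (mem_product.1 hq).1).1.1
    have e₁' := (mem_perf.1 (mem_product.1 hq').1).1.1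
    simp only at a b a' b' e₁ e₁'
    obtain ⟨r₁, r₂⟩ := Prod.ext_iff.1 ((Switch_invol y).injective e)
    refine Prod.ext (funext fun v => ?_) r₂
    by_cases k : v ∈ Q
    · rcases (h.mem v).1 k with rfl | rfl | rfl | rfl
      · exact a.trans a'.symm
      · exact (a ▸ (e₁ x).2).trans (a' ▸ (e₁' x).2).symm
      · exact b.trans b'.symm
      · exact (b ▸ (e₁ x').2).trans (b' ▸ (e₁' x').2).symm
    · exact (if_neg k).symm.trans ((congrFun r₁ v).trans (if_neg k))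

theorem DSw_fin {κ τ : V → V} (hκ : IsExt κ) (hτ : IsExt τ) (n : ∀ v, τ v ≠ v) {y x : V}
    (hy : ¬ IsEven y) (hx : IsEven x) (a : κ y = y) (b : κ x = x) (h : Conn κ τ y x) :
    ∃ N, ∀ v, Conn κ τ y v → v ∈ box N := by
  have fx : pi2 κ τ x = x := (NRec0_even hx).trans b
  have np : ∀ u, pi2 κ τ u ≠ y := fun u e => by
    by_cases k : IsEven u
    · rw [NRec0_even k] at e
      exact hy (hκ.inj (e.trans a.symm) ▸ k)
    · rw [NRec0_odd k] at e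
      exact hy (e ▸ (nbr_parity ((hτ u).1.resolve_left (n u))).2 k)
  obtain ⟨m, hm⟩ := conn_orbit hκ hτ h
  have hm' : (pi2 κ τ)^[m] y = x := hm.resolve_right fun e =>
    hy (e ▸ (Function.iterate_fixed fx m).symm ▸ hx)
  obtain ⟨t, ht⟩ := (Paths_box y).exists
  refine ⟨t + m, fun v hv => ?_⟩
  obtain ⟨j, hj | hj⟩ := conn_orbit hκ hτ hv
  · rcases le_total j m with k | k
    · exact hj ▸ box_mono (by omega) (iterate_box hκ hτ ht j)
    · obtain ⟨i, rfl⟩ := Nat.exists_eq_add_of_le' k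
      rw [Function.iterate_add_apply, hm', Function.iterate_fixed fx] at hj
      exact hj ▸ hm' ▸ iterate_box hκ hτ ht m
  · cases j with
    | zero => exact (show v = y from hj) ▸ box_mono (by omega) ht
    | succ j => exact absurd ((Function.iterate_succ_apply' _ _ _).symm.trans hj) (np _)

theorem DSw_cut {Q : Finset V} {x y x' y' : V} (h : SwD Q x y x' y') {σ τ : V → V} (hσ : IsExt σ)
    (hτ : IsExt τ) (a : σ x = y) (b : σ x' = y') (c : Conn σ τ x x') :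
    Conn (rem Q σ) τ y x' ∨ Conn (rem Q σ) τ y' x := by
  have e := isExt_rem hσ (h.closed hσ a b)
  obtain ⟨s₁, s₂⟩ := h.sinks hσ hτ a b
  by_contra k
  obtain ⟨k₁, k₂⟩ := not_or.1 k
  have key : ∀ v, Conn σ τ x v → Conn (rem Q σ) τ x v ∨ Conn (rem Q σ) τ y v := fun v hv => by
    induction hv with
    | refl => exact .inl .refl
    | @tail u w _ s ih =>
      rcases s with s | s
      · by_cases q : u ∈ Q
        · rcases (h.mem u).1 q with rfl | rfl | rfl | rfl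
          · exact .inr ((a.symm.trans s) ▸ .refl)
          · exact .inl (((a ▸ (hσ x).2).symm.trans s) ▸ .refl)
          · exact (ih.elim s₁ k₁).elim
          · exact (ih.elim (fun r => k₂ (r.symm e hτ)) s₂).elim
        · have s' : rem Q σ u = w := (if_neg q).trans s
          exact ih.imp (fun r => r.tail (.inl s')) fun r => r.tail (.inl s')
      · exact ih.imp (fun r => r.tail (.inr s)) fun r => r.tail (.inr s)
  exact (key _ c).elim s₁ k₁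

theorem DSw_one {ν₁ ν₂ : Measure Dimer} (h₁ : IM ν₁) (h₂ : IM ν₂) (p₁ : FinPos ν₁) (p₂ : FinPos ν₂)
    {Q : Finset V} {x y x' y' : V} (h : SwD Q x y x' y') :
    (ν₁.prod ν₂).real (⋃ N, {p | p.1.1 x = y ∧ p.1.1 x' = y' ∧ SwE Q y x' N p.1.1 p.2.1}) ≤
      Gbar ν₁ (y' - x) * Gbar ν₂ (y - x') := by
  have := h₁.prob
  have := h₂.prob
  have mono : Monotone fun N : ℕ =>
      {p : Dimer × Dimer | p.1.1 x = y ∧ p.1.1 x' = y' ∧ SwE Q y x' N p.1.1 p.2.1} :=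
    fun N N' k p hp => ⟨hp.1, hp.2.1, hp.2.2.1, fun v hv => box_mono k (hp.2.2.2 v hv)⟩
  refine le_of_tendsto ((ENNReal.tendsto_toReal (measure_ne_top _ _)).comp
    (tendsto_measure_iUnion_atTop mono)) ?_
  obtain ⟨N₀, hN₀⟩ := NPosi_box Q
  filter_upwards [eventually_ge_atTop N₀] with N hN
  have hQ : Q ⊆ box N := hN₀.trans (box_mono hN)
  have loc := DSw_local (Q := Q) (y := y) (y' := y') (hQ ((h.mem x).2 (by simp)))
    (hQ ((h.mem x').2 (by simp)))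
  have hm : MeasurableSet
      {p : Dimer × Dimer | p.1.1 x = y ∧ p.1.1 x' = y' ∧ SwE Q y x' N p.1.1 p.2.1} :=
    (loc.measurable (measurableSet_singleton (1 : ℝ))).congr (Set.ext fun p => by simp)
  have e := integral_indicator_one (μ := ν₁.prod ν₂) hm
  have i₁ := (local_M2 (box N) x y').integrable ν₁
  have i₂ := (local_M2 (box N) x' y).integrable ν₂
  have k := integral_mono (μ := ν₁.prod ν₂) (Meas_int2 (local2_gam2 (Λ := box N) loc) _)
    (i₁.mul_prod i₂) fun p => DSw_count h hQ p.1.1 p.2.1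
  rw [h₁.dlr2 h₂ _ loc, integral_prod_mul (fun τ : Dimer => M2 (box N) τ.1 x y')
    (fun τ : Dimer => M2 (box N) τ.1 x' y)] at k
  refine le_trans (le_of_eq (e.symm.trans (integral_congr_ae (.of_forall fun p => ?_))))
    (k.trans (mul_le_mul (le_Gbar h₁ p₁ h.ex h.oy' N) (le_Gbar h₂ p₂ h.ex' h.oy N)
      (integral_nonneg fun _ => M2_nonneg _ _ _ _) (Gbar_nonneg _ _)))
  by_cases q : p.1.1 x = y ∧ p.1.1 x' = y' ∧ SwE Q y x' N p.1.1 p.2.1
  · exact (Set.indicator_of_mem (s := {p : Dimer × Dimer | _}) q _).trans (if_pos q).symm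
  · exact (Set.indicator_of_notMem (s := {p : Dimer × Dimer | _}) q _).trans (if_neg q).symm

/-- The switching bound. -/
theorem conn_le {ν₁ ν₂ : Measure Dimer} (h₁ : IM ν₁) (h₂ : IM ν₂) (p₁ : FinPos ν₁) (p₂ : FinPos ν₂)
    {z : V} (hz : IsEven z) (hne : z ≠ 0) (d : Dir) :
    (ν₁.prod ν₂).real {p | p.1.1 0 = dv d ∧ p.1.1 z = z + dv d ∧ Conn p.1.1 p.2.1 0 z} ≤
      Gbar ν₁ (z + dv d) * Gbar ν₂ (dv d - z) + Gbar ν₂ (z + dv d) * Gbar ν₁ (dv d - z) := by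
  have := h₁.prob
  have := h₂.prob
  have h : SwD {0, dv d, z, z + dv d} 0 (dv d) z (z + dv d) :=
    ⟨fun v => by simp, NScale_ev0, hz, not_isEven_dv d, fun k => isEven_add_dv.1 k hz, hne.symm⟩
  have a := DSw_one h₁ h₂ p₁ p₂ h
  have b := DSw_one h₁ h₂ p₁ p₂ h.symm
  rw [sub_zero] at a b
  rw [mul_comm] at b
  refine le_trans (measureReal_mono ?_) ((measureReal_union_le _ _).trans (add_le_add a b))
  rintro p ⟨k₁, k₂, k₃⟩
  have e₁ := isExt_dimer p.1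
  have e₂ := isExt_dimer p.2
  have e := isExt_rem e₁ (h.closed e₁ k₁ k₂)
  rcases DSw_cut h e₁ e₂ k₁ k₂ k₃ with c | c
  · obtain ⟨N, hN⟩ := DSw_fin e e₂ (NPosi_ne p.2) h.oy h.ex' (if_pos (by simp)) (if_pos (by simp)) c
    exact .inl (Set.mem_iUnion.2 ⟨N, k₁, k₂, c, hN⟩)
  · obtain ⟨N, hN⟩ := DSw_fin e e₂ (NPosi_ne p.2) h.oy' h.ex (if_pos (by simp)) (if_pos (by simp)) c
    exact .inr (Set.mem_iUnion.2 ⟨N, k₂, k₁, c, hN⟩)

end Pool.Agent.Work.MP_5cb0a4_pr.Z
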