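import Pool.Agent.Work.MP_5cb0a4_pr.N.MainN

/-! If two independent ergodic Gibbs samples have no infinite path with positive probability,
the two measures are equal. -/

open MeasureTheory Finset Filter Topology
open scoped Classical

namespace Pool.Agent.Work.MP_5cb0a4_pr.Z

/-- The union of the components that meet `F`. -/
def DU_K (F : Finset V) (σ₁ σ₂ : V → V) : Set V := {y | ∃ x ∈ F, Conn σ₁ σ₂ x y}

/-- All components that meet `F` lie in the box of radius `N`. -/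
def DU_B (F : Finset V) (N : ℕ) (σ₁ σ₂ : V → V) : Prop :=
  ∀ x ∈ F, ∀ y, Conn σ₁ σ₂ x y → y ∈ box N

/-- Exchange of the colours on the components that meet `F`. -/
noncomputable def DU_Phi (F : Finset V) (p : (V → V) × (V → V)) : (V → V) × (V → V) :=
  (swp (DU_K F p.1 p.2) p.1 p.2, swp (DU_K F p.1 p.2) p.2 p.1)

lemma DU_conn (K : Set V) (σ₁ σ₂ : V → V) : Conn (swp K σ₁ σ₂) (swp K σ₂ σ₁) = Conn σ₁ σ₂ := by
  refine congrArg Relation.ReflTransGen (funext fun u => funext fun v => propext ?_)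
  by_cases h : u ∈ K
  · simp only [swp, if_pos h]
    exact or_comm
  · simp only [swp, if_neg h]

lemma DU_Phi_Phi (F : Finset V) (p : (V → V) × (V → V)) : DU_Phi F (DU_Phi F p) = p := by
  have e : DU_K F (DU_Phi F p).1 (DU_Phi F p).2 = DU_K F p.1 p.2 := by
    simp only [DU_Phi, DU_K, DU_conn]
  rw [DU_Phi, e]
  refine Prod.ext (funext fun x => ?_) (funext fun x => ?_)
  · by_cases h : x ∈ DU_K F p.1 p.2
    · simp only [DU_Phi, swp, if_pos h]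
    · simp only [DU_Phi, swp, if_neg h]
  · by_cases h : x ∈ DU_K F p.1 p.2
    · simp only [DU_Phi, swp, if_pos h]
    · simp only [DU_Phi, swp, if_neg h]

lemma DU_B_Phi {F : Finset V} {N : ℕ} {p : (V → V) × (V → V)} (h : DU_B F N p.1 p.2) :
    DU_B F N (DU_Phi F p).1 (DU_Phi F p).2 := by
  simpa only [DU_B, DU_Phi, DU_conn] using h

lemma DU_on {F : Finset V} (p : (V → V) × (V → V)) {x : V} (hx : x ∈ F) :
    (DU_Phi F p).1 x = p.2 x ∧ (DU_Phi F p).2 x = p.1 x := by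
  have h : x ∈ DU_K F p.1 p.2 := ⟨x, hx, Relation.ReflTransGen.refl⟩
  exact ⟨if_pos h, if_pos h⟩

lemma DU_perf1 {Λ : Finset V} {σ₁ σ₂ ρ₁ ρ₂ : V → V} {K : Set V} (h₁ : ρ₁ ∈ perf Λ σ₁)
    (h₂ : ρ₂ ∈ perf Λ σ₂) (k₁ : ∀ x ∈ K, ρ₁ x ∈ K) (k₂ : ∀ x ∈ K, ρ₂ x ∈ K)
    (hK : ∀ x ∈ K, x ∈ Λ) : swp K ρ₁ ρ₂ ∈ perf Λ σ₁ := by
  rw [mem_perf] at h₁ h₂ ⊢
  refine ⟨⟨isExt_swp h₁.1.1 h₂.1.1 k₁ k₂, fun x hx => ?_⟩, fun x hx => ?_⟩
  · rw [show swp K ρ₁ ρ₂ x = ρ₁ x from if_neg fun h => hx (hK x h)]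
    exact h₁.1.2 x hx
  · by_cases h : x ∈ K
    · rw [show swp K ρ₁ ρ₂ x = ρ₂ x from if_pos h]
      exact h₂.2 x hx
    · rw [show swp K ρ₁ ρ₂ x = ρ₁ x from if_neg h]
      exact h₁.2 x hx

lemma DU_perf {F : Finset V} {N : ℕ} {σ₁ σ₂ : V → V} {p : (V → V) × (V → V)}
    (hp : p ∈ perf (box N) σ₁ ×ˢ perf (box N) σ₂) (h : DU_B F N p.1 p.2) :
    DU_Phi F p ∈ perf (box N) σ₁ ×ˢ perf (box N) σ₂ := by
  rw [mem_product] at hp ⊢
  have k₁ : ∀ x ∈ DU_K F p.1 p.2, p.1 x ∈ DU_K F p.1 p.2 := fun x ⟨z, hz, hc⟩ =>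
    ⟨z, hz, hc.tail (Or.inl rfl)⟩
  have k₂ : ∀ x ∈ DU_K F p.1 p.2, p.2 x ∈ DU_K F p.1 p.2 := fun x ⟨z, hz, hc⟩ =>
    ⟨z, hz, hc.tail (Or.inr rfl)⟩
  have hK : ∀ x ∈ DU_K F p.1 p.2, x ∈ box N := fun x ⟨z, hz, hc⟩ => h z hz x hc
  exact ⟨DU_perf1 hp.1 hp.2 k₁ k₂ hK, DU_perf1 hp.2 hp.1 k₂ k₁ hK⟩

lemma DU_sum {Λ F : Finset V} (hF : Λ ⊆ F) (N : ℕ) (σ₁ σ₂ c : V → V) :
    (∑ ρ₁ ∈ perf (box N) σ₁, ∑ ρ₂ ∈ perf (box N) σ₂,
      if DU_B F N ρ₁ ρ₂ ∧ ∀ x ∈ Λ, ρ₁ x = c x then (1 : ℝ) else 0) =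
    ∑ ρ₁ ∈ perf (box N) σ₁, ∑ ρ₂ ∈ perf (box N) σ₂,
      if DU_B F N ρ₁ ρ₂ ∧ ∀ x ∈ Λ, ρ₂ x = c x then (1 : ℝ) else 0 := by
  rw [← sum_product' (f := fun ρ₁ ρ₂ : V → V =>
      if DU_B F N ρ₁ ρ₂ ∧ ∀ x ∈ Λ, ρ₁ x = c x then (1 : ℝ) else 0),
    ← sum_product' (f := fun ρ₁ ρ₂ : V → V =>
      if DU_B F N ρ₁ ρ₂ ∧ ∀ x ∈ Λ, ρ₂ x = c x then (1 : ℝ) else 0), sum_boole, sum_boole]
  congr 1
  refine card_nbij' (DU_Phi F) (DU_Phi F) (fun p hp => ?_) (fun p hp => ?_)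
    (fun p _ => DU_Phi_Phi F p) fun p _ => DU_Phi_Phi F p
  · rw [mem_coe, mem_filter] at hp ⊢
    exact ⟨DU_perf hp.1 hp.2.1, DU_B_Phi hp.2.1,
      fun x hx => (DU_on p (hF hx)).2.trans (hp.2.2 x hx)⟩
  · rw [mem_coe, mem_filter] at hp ⊢
    exact ⟨DU_perf hp.1 hp.2.1, DU_B_Phi hp.2.1,
      fun x hx => (DU_on p (hF hx)).1.trans (hp.2.2 x hx)⟩

lemma DU_B_congr {F : Finset V} {N : ℕ} {σ₁ σ₂ σ₁' σ₂' : V → V}
    (h₁ : ∀ x ∈ box N, σ₁ x = σ₁' x) (h₂ : ∀ x ∈ box N, σ₂ x = σ₂' x) (h : DU_B F N σ₁ σ₂) :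
    DU_B F N σ₁' σ₂' := by
  intro x hx y hy
  refine h x hx y ?_
  induction hy with
  | refl => exact Relation.ReflTransGen.refl
  | tail _ hs ih =>
    have hb := h x hx _ ih
    exact ih.tail (by rwa [h₁ _ hb, h₂ _ hb])

lemma DU_loc1 {Λ F : Finset V} (hF : Λ ⊆ F) (N : ℕ) (c : V → V) :
    Local2 (box N) fun ρ₁ ρ₂ : V → V =>
      if DU_B F N ρ₁ ρ₂ ∧ ∀ x ∈ Λ, ρ₁ x = c x then (1 : ℝ) else 0 := by
  intro σ₁ σ₂ σ₁' σ₂' _ _ _ _ h₁ h₂
  refine if_congr ⟨fun h => ⟨DU_B_congr h₁ h₂ h.1, fun x hx => ?_⟩, fun h =>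
    ⟨DU_B_congr (fun x hx => (h₁ x hx).symm) (fun x hx => (h₂ x hx).symm) h.1, fun x hx => ?_⟩⟩
    rfl rfl
  · rw [← h₁ x (h.1 x (hF hx) x Relation.ReflTransGen.refl)]
    exact h.2 x hx
  · rw [h₁ x (h.1 x (hF hx) x Relation.ReflTransGen.refl)]
    exact h.2 x hx

lemma DU_loc2 {Λ F : Finset V} (hF : Λ ⊆ F) (N : ℕ) (c : V → V) :
    Local2 (box N) fun ρ₁ ρ₂ : V → V =>
      if DU_B F N ρ₁ ρ₂ ∧ ∀ x ∈ Λ, ρ₂ x = c x then (1 : ℝ) else 0 := by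
  intro σ₁ σ₂ σ₁' σ₂' _ _ _ _ h₁ h₂
  refine if_congr ⟨fun h => ⟨DU_B_congr h₁ h₂ h.1, fun x hx => ?_⟩, fun h =>
    ⟨DU_B_congr (fun x hx => (h₁ x hx).symm) (fun x hx => (h₂ x hx).symm) h.1, fun x hx => ?_⟩⟩
    rfl rfl
  · rw [← h₂ x (h.1 x (hF hx) x Relation.ReflTransGen.refl)]
    exact h.2 x hx
  · rw [h₂ x (h.1 x (hF hx) x Relation.ReflTransGen.refl)]
    exact h.2 x hx

/-- Cylinder sets. -/
def DU_cyl (Λ : Finset V) (c : V → V) : Set Dimer := {τ | ∀ x ∈ Λ, τ.1 x = c x}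

lemma DU_cyl_meas (Λ : Finset V) (c : V → V) : MeasurableSet (DU_cyl Λ c) := by
  have h0 : ∀ u v : V, Measurable fun τ : Dimer => τ.1 u = v := fun u v => by
    have hm : Measurable fun τ : Dimer => τ.1 u :=
      (measurable_pi_apply u).comp measurable_subtype_coe
    exact measurableSet_setOf.1
      (show MeasurableSet {τ : Dimer | τ.1 u = v} from hm (measurableSet_singleton v))
  exact measurableSet_setOf.2 (Measurable.forall fun x => measurable_const.imp (h0 x (c x)))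

/-- The event `DU_B` for a pair of dimer configurations. -/
def DU_S (F : Finset V) (N : ℕ) : Set (Dimer × Dimer) := {p | DU_B F N p.1.1 p.2.1}

lemma DU_S_meas (F : Finset V) (N : ℕ) : MeasurableSet (DU_S F N) :=
  measurableSet_setOf.2 (Measurable.forall fun x => measurable_const.imp
    (Measurable.forall fun y => (Paths_meas x y).imp measurable_const))

lemma DU_fin {ν₁ ν₂ : Measure Dimer} (h₁ : IsErgodicGibbs ν₁) (h₂ : IsErgodicGibbs ν₂)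
    {Λ F : Finset V} (hF : Λ ⊆ F) (N : ℕ) (c : V → V) :
    (ν₁.prod ν₂) (DU_S F N ∩ Prod.fst ⁻¹' DU_cyl Λ c) =
      (ν₁.prod ν₂) (DU_S F N ∩ Prod.snd ⁻¹' DU_cyl Λ c) := by
  have := h₁.prob
  have := h₂.prob
  have m1 := (DU_S_meas F N).inter (measurable_fst (DU_cyl_meas Λ c))
  have m2 := (DU_S_meas F N).inter (measurable_snd (DU_cyl_meas Λ c))
  rw [← measureReal_eq_measureReal_iff (measure_ne_top _ _) (measure_ne_top _ _),
    ← integral_indicator_one m1, ← integral_indicator_one m2]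
  have e1 := dlr2 h₁ h₂ (box N) (DU_loc1 hF N c)
  have e2 := dlr2 h₁ h₂ (box N) (DU_loc2 hF N c)
  simp only [DU_sum hF N] at e1
  refine Eq.trans ?_ ((e1.trans e2.symm).trans ?_)
  · exact integral_congr_ae (Eventually.of_forall fun p => by
      simp only [Set.indicator_apply, Pi.one_apply]
      exact if_congr Iff.rfl rfl rfl)
  · exact integral_congr_ae (Eventually.of_forall fun p => by
      simp only [Set.indicator_apply, Pi.one_apply]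
      exact if_congr Iff.rfl rfl rfl)

lemma DU_compl (Λ : Finset V) : (Ik 1)ᶜ = ⋂ L : ℕ, ⋃ N : ℕ, DU_S (Λ ∪ box L) N := by
  ext p
  simp only [Set.mem_compl_iff, Set.mem_iInter, Set.mem_iUnion]
  constructor
  · intro h L
    have hf : ∀ x, {y | Conn p.1.1 p.2.1 x y}.Finite := fun x => by
      by_contra hx
      exact h ⟨fun _ => x, fun _ => hx, fun i j hij => absurd (Subsingleton.elim i j) hij⟩
    have h2 : ∀ᶠ N in atTop, ∀ x ∈ Λ ∪ box L, ∀ y ∈ {y | Conn p.1.1 p.2.1 x y}, y ∈ box N :=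
      (eventually_all_finset _).2 fun x _ => (eventually_all_finite (hf x)).2 fun y _ => Paths_box y
    exact h2.exists
  · rintro h ⟨x, hx, -⟩
    obtain ⟨L, hL⟩ := (Paths_box (x 0)).exists
    obtain ⟨N, hN⟩ := h L
    exact hx 0 ((box N).finite_toSet.subset fun y hy => hN _ (mem_union_right _ hL) y hy)

lemma DU_lim {μ : Measure (Dimer × Dimer)} [IsFiniteMeasure μ] (Λ : Finset V)
    {E₁ E₂ : Set (Dimer × Dimer)} (m₁ : MeasurableSet E₁) (m₂ : MeasurableSet E₂)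
    (h : ∀ L N : ℕ, μ (DU_S (Λ ∪ box L) N ∩ E₁) = μ (DU_S (Λ ∪ box L) N ∩ E₂)) :
    μ ((Ik 1)ᶜ ∩ E₁) = μ ((Ik 1)ᶜ ∩ E₂) := by
  have key : ∀ E : Set (Dimer × Dimer), MeasurableSet E →
      μ ((Ik 1)ᶜ ∩ E) = ⨅ L : ℕ, ⨆ N : ℕ, μ (DU_S (Λ ∪ box L) N ∩ E) := by
    intro E mE
    rw [DU_compl Λ, Set.iInter_inter, Antitone.measure_iInter]
    · refine iInf_congr fun L => ?_
      rw [Set.iUnion_inter, Monotone.measure_iUnion]
      exact fun a b hab => Set.inter_subset_inter_left _ fun p hp x hx y hy =>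
        box_mono hab (hp x hx y hy)
    · exact fun a b hab => Set.inter_subset_inter_left _ (Set.iUnion_mono fun N p hp x hx =>
        hp x (union_subset_union_right (box_mono hab) hx))
    · exact fun L => ((MeasurableSet.iUnion fun N => DU_S_meas _ N).inter mE).nullMeasurableSet
    · exact ⟨0, measure_ne_top _ _⟩
  rw [key _ m₁, key _ m₂]
  simp only [h]

lemma DU_erg {ν₁ ν₂ : Measure Dimer} (h₁ : IsErgodicGibbs ν₁) (h₂ : IsErgodicGibbs ν₂)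
    {A : Set (Dimer × Dimer)} (mA : MeasurableSet A)
    (hA : ∀ v, (fun p : Dimer × Dimer => (shift v p.1, shift v p.2)) ⁻¹' A = A)
    {E : Set Dimer} (mE : MeasurableSet E) :
    (ν₁.prod ν₂) (A ∩ Prod.fst ⁻¹' E) = (ν₁.prod ν₂) A * ν₁ E := by
  have := h₁.prob
  have := h₂.prob
  have hm : Measurable fun τ : Dimer => ν₂ (Prod.mk τ ⁻¹' A) :=
    measurable_measure_prodMk_left mA
  have hi : ∀ v, IsEven v → ∀ τ, ν₂ (Prod.mk (shift v τ) ⁻¹' A) = ν₂ (Prod.mk τ ⁻¹' A) := by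
    intro v hv τ
    rw [← (h₂.invariant v hv).measure_preimage (measurable_prodMk_left mA).nullMeasurableSet]
    refine congrArg ν₂ (Set.ext fun σ => ?_)
    exact Set.ext_iff.1 (hA v) (τ, σ)
  obtain ⟨κ, hκ⟩ : ∃ κ, (fun τ : Dimer => ν₂ (Prod.mk τ ⁻¹' A)) =ᵐ[ν₁] Function.const _ κ := by
    refine exists_eventuallyEq_const_of_forall_separating MeasurableSet fun S hS => ?_
    have hS' := hm hS
    refine (h₁.ergodic _ hS' fun v hv => ?_).symm.imp (mem_ae_iff_prob_eq_one hS').2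
      measure_eq_zero_iff_ae_notMem.1
    refine Eventually.of_forall fun τ => ?_
    exact congrArg (· ∈ S) (hi v hv τ)
  have e1 : (ν₁.prod ν₂) A = κ := by
    rw [Measure.prod_apply mA, lintegral_congr_ae hκ]
    simp
  rw [e1, Measure.prod_apply (mA.inter (measurable_fst mE)), ← setLIntegral_const,
    ← lintegral_indicator mE]
  refine lintegral_congr_ae ?_
  filter_upwards [hκ] with τ hτ
  by_cases h : τ ∈ E
  · rw [Set.indicator_of_mem h, ← show ν₂ (Prod.mk τ ⁻¹' A) = κ from hτ]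
    refine congrArg ν₂ (Set.ext fun σ => ?_)
    exact ⟨fun k => k.1, fun k => ⟨k, h⟩⟩
  · rw [Set.indicator_of_notMem h,
      show Prod.mk τ ⁻¹' (A ∩ Prod.fst ⁻¹' E) = (∅ : Set Dimer) from
        Set.eq_empty_of_forall_notMem fun σ k => h k.2, measure_empty]

lemma DU_ext {ν₁ ν₂ : Measure Dimer} [IsProbabilityMeasure ν₁] [IsProbabilityMeasure ν₂]
    (h : ∀ Λ c, ν₁ (DU_cyl Λ c) = ν₂ (DU_cyl Λ c)) : ν₁ = ν₂ := by
  refine ext_of_generate_finite {E | ∃ Λ c, E = DU_cyl Λ c} (le_antisymm ?_ ?_) ?_ ?_ (by simp)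
  · have hm : @Measurable Dimer Dimer (MeasurableSpace.generateFrom {E | ∃ Λ c, E = DU_cyl Λ c})
        inferInstance id := by
      letI m : MeasurableSpace Dimer := MeasurableSpace.generateFrom {E | ∃ Λ c, E = DU_cyl Λ c}
      have h1 : @Measurable Dimer (V → V) m inferInstance fun τ => τ.1 := by
        refine measurable_pi_iff.2 fun x => measurable_to_countable' fun y => ?_
        refine MeasurableSpace.measurableSet_generateFrom ⟨{x}, fun _ => y, Set.ext fun τ => ?_⟩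
        simp [DU_cyl]
      rintro _ ⟨T, hT, rfl⟩
      exact h1 hT
    exact fun S hS => hm hS
  · refine MeasurableSpace.generateFrom_le ?_
    rintro _ ⟨Λ, c, rfl⟩
    exact DU_cyl_meas Λ c
  · rintro _ ⟨Λ, c, rfl⟩ _ ⟨Λ', c', rfl⟩ ⟨τ, k, k'⟩
    refine ⟨Λ ∪ Λ', τ.1, Set.ext fun σ => ⟨fun a x hx => ?_, fun a => ⟨fun x hx => ?_, fun x hx => ?_⟩⟩⟩
    · rcases mem_union.1 hx with hx | hx
      · exact (a.1 x hx).trans (k x hx).symm
      · exact (a.2 x hx).trans (k' x hx).symm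
    · exact (a x (mem_union_left _ hx)).trans (k x hx)
    · exact (a x (mem_union_right _ hx)).trans (k' x hx)
  · rintro _ ⟨Λ, c, rfl⟩
    exact h Λ c

theorem eq_of_noPath {ν₁ ν₂ : Measure Dimer} (h₁ : IsErgodicGibbs ν₁) (h₂ : IsErgodicGibbs ν₂)
    (h : (ν₁.prod ν₂) (Ik 1)ᶜ ≠ 0) : ν₁ = ν₂ := by
  have := h₁.prob
  have := h₂.prob
  have mA := (measurableSet_Ik 1).compl
  have hA : ∀ v, (fun p : Dimer × Dimer => (shift v p.1, shift v p.2)) ⁻¹' (Ik 1)ᶜ = (Ik 1)ᶜ :=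
    fun v => by rw [Set.preimage_compl, Ik_shift]
  refine DU_ext fun Λ c => ?_
  have mE := DU_cyl_meas Λ c
  have e1 := DU_lim (μ := ν₁.prod ν₂) Λ (measurable_fst mE) (measurable_snd mE) fun L N =>
    DU_fin h₁ h₂ subset_union_left N c
  have e2 := DU_erg h₁ h₂ mA hA mE
  have e3 := DU_erg h₂ h₁ (measurable_swap mA)
    (fun v => Set.ext fun p => Set.ext_iff.1 (hA v) p.swap) mE
  have e4 : ∀ S : Set (Dimer × Dimer), MeasurableSet S →
      (ν₂.prod ν₁) (Prod.swap ⁻¹' S) = (ν₁.prod ν₂) S := fun S hS => by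
    rw [← Measure.prod_swap, Measure.map_apply measurable_swap (measurable_swap hS)]
    rfl
  rw [e4 _ mA] at e3
  have e5 := e4 _ (mA.inter (measurable_snd mE))
  have e6 : (ν₁.prod ν₂) (Ik 1)ᶜ * ν₁ (DU_cyl Λ c) = (ν₁.prod ν₂) (Ik 1)ᶜ * ν₂ (DU_cyl Λ c) :=
    e2.symm.trans (e1.trans (e5.symm.trans e3))
  exact (ENNReal.mul_right_inj h (measure_ne_top _ _)).1 e6

end Pool.Agent.Work.MP_5cb0a4_pr.Z
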